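import Pool.Agent.Q170.GF.Stmts

/-! Assembly for MP_bbd370_an. -/

namespace Pool.Agent.Q170.GF
open MeasureTheory Set Filter Topology

/-- The data of a growth-fragmentation equation: growth rate `r`, fragmentation rate `a`, kernel `b x y`,
and the backward flow `X y t` of `r`. -/
structure Data where
  r : ℝ → ℝ
  a : ℝ → ℝ
  b : ℝ → ℝ → ℝ
  X : ℝ → ℝ → ℝ

/-- The hypotheses of the problem on the data. -/
structure Data.Admissible (d : Data) : Prop where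
  r_pos : ∀ x, 0 < x → 0 < d.r x
  r_int : LocallyIntegrableOn (fun x => 1 / d.r x) (Ioi 0)
  r_zero : ∫⁻ x in Ioc (0 : ℝ) 1, ENNReal.ofReal (1 / d.r x) = ⊤
  r_infty : ∫⁻ x in Ioi (1 : ℝ), ENNReal.ofReal (1 / d.r x) = ⊤
  a_meas : Measurable d.a
  a_nonneg : ∀ x, 0 < x → 0 ≤ d.a x
  b_meas : Measurable (Function.uncurry d.b)
  b_nonneg : ∀ x y, 0 < x → x < y → 0 ≤ d.b x y
  mass : ∀ y, 0 < y → ∫⁻ x in Ioo 0 y, ENNReal.ofReal (x * d.b x y) ≤ ENNReal.ofReal y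
  flow : ∀ y t, 0 < y → 0 ≤ t → 0 < d.X y t ∧ d.X y t ≤ y ∧ ∫ τ in d.X y t..y, 1 / d.r τ = t

/-- `U` is the `C₀`-semigroup `U_0^{(a)}` of the problem (with generator `T_0^{(a)}`). -/
def Data.IsTransport (d : Data) (U : ℝ → X1 →L[ℝ] X1) : Prop :=
  IsC0 U ∧ ∀ t, 0 ≤ t → ∀ f : X1, (U t f : ℝ → ℝ) =ᵐ[mu] fun y =>
    Real.exp (-∫ p in d.X y t..y, d.a p / d.r p) * f (d.X y t) * deriv (fun z => d.X z t) y

/-- `V` is a positive `C₀`-semigroup with generator `T_0^{(a)} + B` on the domain of the generator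
`T_0^{(a)}` of `U`, `B f x = ∫_x^∞ a y b x y f y dy`. -/
def Data.IsGenerated (d : Data) (U V : ℝ → X1 →L[ℝ] X1) : Prop :=
  IsC0 V ∧ (∀ t, 0 ≤ t → ∀ f, 0 ≤ f → 0 ≤ V t f) ∧
  ∀ f g : X1, Gen V f g ↔ ∃ k l : X1, Gen U f k ∧
    ((l : ℝ → ℝ) =ᵐ[mu] fun x => ∫ y in Ioi x, d.a y * d.b x y * f y) ∧ g = k + l

/-- Spectral gap: `r_ess (V t) ≤ e^{ω₁ t}` and `e^{ω₂ t} ≤ r (V t)` for all `t > 0`, with `ω₁ < ω₂`. -/
def HasGap (V : ℝ → X1 →L[ℝ] X1) (ω₁ ω₂ : ℝ) : Prop :=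
  ω₁ < ω₂ ∧ ∀ t, 0 < t → essRad (V t) ≤ Real.exp (ω₁ * t) ∧ Real.exp (ω₂ * t) ≤ rad (V t)

/-- the example -/
noncomputable def ex : Data where
  r x := x
  a _ := 2
  b := bb
  X y t := y * Real.exp (-t)

theorem IsGrp.isC0 {X : Type} [NormedAddCommGroup X] [NormedSpace ℝ X] {U : ℝ → X →L[ℝ] X}
    (h : IsGrp U) : IsC0 U :=
  ⟨h.zero, fun s t _ _ => h.add s t, fun f => (h.cont f).continuousOn⟩

theorem assemble (tU : TaskU) (tUgrp : TaskUgrp) (tUcont : TaskUcont) (tPhi : TaskPhi) (tH : TaskH)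
    (tFixEx : TaskFixEx) (tPhiFix : TaskPhiFix) (tEig : TaskEig) (tUpos : TaskUpos) (tFrag : TaskFrag)
    (tMass : TaskMass) (tRate : TaskRate) (tStep : TaskStep) (tODE : TaskODE) (tUniq : TaskUniq)
    (tPert : TaskPert) (tDuhUniq : TaskDuhUniq) (tGrp : TaskGrp) (tGen : TaskGen) (tFix : TaskFix)
    (tRankOne : TaskRankOne) (tCompact : TaskCompact) (tVolt : TaskVolt) (tVpos : TaskVpos)
    (tEss : TaskEss) (tRad : TaskRad) :
    ∃ d : Data, d.Admissible ∧ (∃ C, ∀ x, 0 < x → d.a x ≤ C) ∧ ∃ U V : ℝ → X1 →L[ℝ] X1,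
      d.IsTransport U ∧ d.IsGenerated U V ∧ HasGap V (-1) 0 := by
  obtain ⟨U, hU, hn⟩ := tU
  have hUg : IsGrp U := ⟨(tUgrp U hU).1, (tUgrp U hU).2, tUcont tUgrp U hU hn⟩
  have hUn : ∀ t, ‖U t‖ ≤ Real.exp (-t) := fun t =>
    ContinuousLinearMap.opNorm_le_bound _ (Real.exp_pos _).le (fun f => (hn t f).le)
  obtain ⟨φ, hφ⟩ := tPhi.1
  obtain ⟨h, hh⟩ := tH.1
  obtain ⟨u, hu⟩ := tFixEx.1
  obtain ⟨B, hB⟩ : ∃ B : X1 →L[ℝ] X1, ∀ f, B f = φ f • h := ⟨φ.smulRight h, fun f => rfl⟩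
  obtain ⟨V, hVc, hD⟩ := tPert (tODE tStep) X1 U B hUg hUn
  have hVg : IsGrp V := tGrp (tDuhUniq tUniq) X1 U V B hUg hUn hVc hD
  have hgen := tGen X1 U V B hUg hUn hVg hD
  have hfix : ∀ t, 0 ≤ t → V t u = u := by
    apply tFix X1 V u hVg
    have h2 : Gen V u (-((2 : ℝ) • h) + B u) := (hgen _ _).2 (tEig U h u hU hh hu)
    rw [hB, tPhiFix φ u hφ hu] at h2
    simpa using h2
  have hfrag : ∀ f : X1, ((B f : X1) : ℝ → ℝ) =ᵐ[mu] fun x => ∫ y in Ioi x, ex.a y * ex.b x y * f y := by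
    intro f
    rw [hB]
    exact tFrag φ h hφ hh f
  refine ⟨ex, ⟨fun x hx => hx, tRate.1, tRate.2.1, tRate.2.2.1, measurable_const,
    fun x _ => by norm_num [ex], tMass.1, tMass.2.1, tMass.2.2, fun y t hy ht => tRate.2.2.2.1 y t hy ht⟩,
    ⟨2, fun x _ => le_rfl⟩, U, V, ⟨hUg.isC0, ?_⟩, ⟨hVg.isC0, ?_, ?_⟩, by norm_num, ?_⟩
  · intro t ht f
    have hpos : ∀ᵐ y ∂mu, (0 : ℝ) < y := by
      have h1 : ∀ᵐ y ∂(volume.restrict (Ioi (0 : ℝ))), (0 : ℝ) < y :=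
        ae_restrict_mem measurableSet_Ioi
      exact (withDensity_absolutelyContinuous _ _).ae_le h1
    filter_upwards [hU t f, hpos] with y hy hy0
    rw [hy]
    have h3 := tRate.2.2.2.2 y t hy0 ht
    show Real.exp (-3 * t) * f (y * Real.exp (-t)) =
      Real.exp (-∫ p in (y * Real.exp (-t))..y, 2 / p) * f (y * Real.exp (-t)) *
        deriv (fun z : ℝ => z * Real.exp (-t)) y
    rw [← h3]; ring
  · intro t ht f hf
    exact tVpos tVolt U V B φ h hUg hVg hD hB (tH.2 h hh) (tPhi.2 φ hφ)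
      (fun t f _ hf => tUpos U hU t f hf) t f ht hf
  · intro f g
    constructor
    · intro hg
      refine ⟨g - B f, B f, ?_, hfrag f, by abel⟩
      rw [← hgen]
      simpa using hg
    · rintro ⟨k, l, hk, hl, rfl⟩
      have : l = B f := Lp.ext (hl.trans (hfrag f).symm)
      rw [this]
      exact (hgen f k).2 hk
  · intro t ht
    constructor
    · refine (tEss X1 (V t) (U t) (tCompact tRankOne X1 U V B φ h hUg hVg hD hB t ht.le)).trans ?_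
      refine (hUn t).trans (le_of_eq ?_)
      congr 1; ring
    · rw [zero_mul, Real.exp_zero]
      exact tRad X1 (V t) u (tFixEx.2 u hu) (hfix t ht.le)

end Pool.Agent.Q170.GF
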