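import Mathlib

/-!
Blueprint (helper170) for MP_bbd370_an: a growth-fragmentation semigroup with bounded fragmentation
rate and a spectral gap.  Data: `r x = x`, `a = 2`, `b x y = y / x` for `x < 1 < y` (else `0`).
`U t f y = e^{-3t} f (y e^{-t})`, `‖U t f‖ = e^{-t} ‖f‖` on `X₁ = L¹(x dx)`; the fragmentation
operator is the bounded rank one operator `B f = φ f • h`, `h x = 1/x` on `(0,1)`,
`φ f = 2 ∫_1^∞ y f y dy`; `V = ` semigroup of `T₀ + B` has the fixed vector `u = 1/x` on `(0,1)`,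
`1/x^3` on `(1,∞)`, and `V t - U t` is compact, so `r_ess (V t) ≤ e^{-t} < 1 ≤ r (V t)`.
-/

namespace Pool.Agent.Q170.GF
open MeasureTheory Set Filter Topology

/-- the measure `x dx` on `(0, ∞)` -/
noncomputable def mu : Measure ℝ :=
  (volume.restrict (Ioi 0)).withDensity fun x => ENNReal.ofReal x

/-- `X₁ = L¹((0, ∞); x dx)` -/
noncomputable abbrev X1 := Lp ℝ 1 mu

section abstr
variable {X : Type} [NormedAddCommGroup X] [NormedSpace ℝ X]

/-- `C₀`-semigroup -/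
structure IsC0 (V : ℝ → X →L[ℝ] X) : Prop where
  zero : V 0 = 1
  add : ∀ s t, 0 ≤ s → 0 ≤ t → V (s + t) = V s * V t
  cont : ∀ f, ContinuousOn (fun t => V t f) (Ici 0)

/-- strongly continuous group -/
structure IsGrp (U : ℝ → X →L[ℝ] X) : Prop where
  zero : U 0 = 1
  add : ∀ s t, U (s + t) = U s * U t
  cont : ∀ f, Continuous fun t => U t f

/-- `f` is in the domain of the generator and `g` is the value of the generator at `f` -/
def Gen (V : ℝ → X →L[ℝ] X) (f g : X) : Prop :=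
  Tendsto (fun t : ℝ => t⁻¹ • (V t f - f)) (𝓝[>] 0) (𝓝 g)

/-- distance to the compact operators -/
noncomputable def essNorm (T : X →L[ℝ] X) : ℝ :=
  sInf {c | ∃ K : X →L[ℝ] X, IsCompactOperator K ∧ c = ‖T - K‖}

/-- essential spectral radius (Gelfand formula in the Calkin algebra) -/
noncomputable def essRad (T : X →L[ℝ] X) : ℝ :=
  ⨅ n : ℕ, essNorm (T ^ (n + 1)) ^ ((1 : ℝ) / (n + 1))

/-- spectral radius (Gelfand formula) -/
noncomputable def rad (T : X →L[ℝ] X) : ℝ :=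
  ⨅ n : ℕ, ‖T ^ (n + 1)‖ ^ ((1 : ℝ) / (n + 1))

end abstr

/-- the kernel of the example -/
noncomputable def bb (x y : ℝ) : ℝ := if x < 1 ∧ 1 < y then y / x else 0

/-- `U` has the formula of the transport semigroup -/
def IsU (U : ℝ → X1 →L[ℝ] X1) : Prop :=
  ∀ t f, (U t f : ℝ → ℝ) =ᵐ[mu] fun y => Real.exp (-3 * t) * f (y * Real.exp (-t))

/-- `h x = 1 / x` for `x < 1` -/
def IsH (h : X1) : Prop := (h : ℝ → ℝ) =ᵐ[mu] fun x => if x < 1 then x⁻¹ else 0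

/-- the fixed vector -/
def IsFix (u : X1) : Prop := (u : ℝ → ℝ) =ᵐ[mu] fun x => if x < 1 then x⁻¹ else (x ^ 3)⁻¹

/-- the functional -/
def IsPhi (φ : X1 →L[ℝ] ℝ) : Prop := ∀ f : X1, φ f = 2 * ∫ y in Ioi (1 : ℝ), y * f y

/-! ### concrete tasks -/

/-- (C1) the dilation group. Substitution `y = e^t x` in `∫ y |f (y e^{-t})| dy`; `MemLp.toLp`. -/
def TaskU : Prop := ∃ U : ℝ → X1 →L[ℝ] X1, IsU U ∧ ∀ t f, ‖U t f‖ = Real.exp (-t) * ‖f‖

/-- (C2) the group law (dilations are quasi measure preserving for `mu`). -/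
def TaskUgrp : Prop := ∀ U : ℝ → X1 →L[ℝ] X1, IsU U → U 0 = 1 ∧ ∀ s t, U (s + t) = U s * U t

/-- (C3) strong continuity. By the group law and the norm identity continuity at `0` on a dense set is
enough, e.g. continuous compactly supported functions, or indicators of bounded intervals / bounded
measurable functions with bounded support (`Lp` density; dominated convergence). -/
def TaskUcont : Prop := TaskUgrp → ∀ U : ℝ → X1 →L[ℝ] X1, IsU U →
  (∀ t f, ‖U t f‖ = Real.exp (-t) * ‖f‖) → ∀ f, Continuous fun t => U t f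

/-- (C4) the functional is bounded. -/
def TaskPhi : Prop := (∃ φ : X1 →L[ℝ] ℝ, IsPhi φ) ∧ ∀ φ : X1 →L[ℝ] ℝ, IsPhi φ → ∀ f : X1, 0 ≤ f → 0 ≤ φ f

/-- (C5) `∫_0^1 x x⁻¹ dx = 1`. -/
def TaskH : Prop := (∃ h : X1, IsH h) ∧ ∀ h : X1, IsH h → 0 ≤ h

/-- (C6) the fixed vector is in `X₁` and not `0`. -/
def TaskFixEx : Prop := (∃ u : X1, IsFix u) ∧ ∀ u : X1, IsFix u → u ≠ 0

/-- (C7) `φ u = 2`. -/
def TaskPhiFix : Prop := ∀ (φ : X1 →L[ℝ] ℝ) (u : X1), IsPhi φ → IsFix u → φ u = 2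

/-- (C8) the generator of `U` at `u` is `-2 h`: with `F t = t⁻¹ (U t u - u) + 2 h`,
`‖F t‖ = |(e^{-2t} - 1)/t + 2| + t⁻¹ ∫_1^{e^t} |e^{-2t} - y⁻²| dy`
`≤ |(e^{-2t} - 1)/t + 2| + t⁻¹ (e^t - 1) (1 - e^{-2t}) → 0`. -/
def TaskEig : Prop := ∀ (U : ℝ → X1 →L[ℝ] X1) (h u : X1), IsU U → IsH h → IsFix u →
  Gen U u (-((2 : ℝ) • h))

/-- (C9) `U t` is positive. -/
def TaskUpos : Prop := ∀ U : ℝ → X1 →L[ℝ] X1, IsU U → ∀ t f, 0 ≤ f → 0 ≤ U t f

/-- (C10) the fragmentation operator is `φ f • h`. -/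
def TaskFrag : Prop := ∀ (φ : X1 →L[ℝ] ℝ) (h : X1), IsPhi φ → IsH h → ∀ f : X1,
  ((φ f • h : X1) : ℝ → ℝ) =ᵐ[mu] fun x => ∫ y in Ioi x, 2 * bb x y * f y

/-- (C11) mass: `∫_0^y x b(x,y) dx ≤ y`, and measurability. -/
def TaskMass : Prop := Measurable (Function.uncurry bb) ∧ (∀ x y, 0 < x → x < y → 0 ≤ bb x y) ∧
  ∀ y : ℝ, 0 < y → ∫⁻ x in Ioo 0 y, ENNReal.ofReal (x * bb x y) ≤ ENNReal.ofReal y

/-- (C12) the growth rate `r x = x`. -/
def TaskRate : Prop := LocallyIntegrableOn (fun x : ℝ => 1 / x) (Ioi 0) ∧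
  (∫⁻ x in Ioc (0 : ℝ) 1, ENNReal.ofReal (1 / x) = ⊤) ∧ (∫⁻ x in Ioi (1 : ℝ), ENNReal.ofReal (1 / x) = ⊤) ∧
  (∀ y t : ℝ, 0 < y → 0 ≤ t → 0 < y * Real.exp (-t) ∧ y * Real.exp (-t) ≤ y ∧
    ∫ τ in (y * Real.exp (-t))..y, 1 / τ = t) ∧
  ∀ y t : ℝ, 0 < y → 0 ≤ t → Real.exp (-∫ p in (y * Real.exp (-t))..y, 2 / p) *
    deriv (fun z : ℝ => z * Real.exp (-t)) y = Real.exp (-3 * t)

/-! ### abstract tasks -/

/-- (A1) one step of the Picard iteration (strong integral of operators). -/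
def TaskStep : Prop := ∀ (X : Type) [NormedAddCommGroup X] [NormedSpace ℝ X] [CompleteSpace X]
  (F : ℝ → X →L[ℝ] X) (C : ℝ) (n : ℕ), 0 ≤ C → (∀ f, Continuous fun s => F s f) →
  (∀ s, ‖F s‖ ≤ C * (C * |s|) ^ n / n.factorial) →
  ∃ G : ℝ → X →L[ℝ] X, (∀ f, Continuous fun s => G s f) ∧ (∀ t f, G t f = ∫ s in (0 : ℝ)..t, F s f) ∧
    ∀ s, ‖G s‖ ≤ (C * |s|) ^ (n + 1) / (n + 1).factorial

/-- (A2) existence for linear equations (Dyson series `W = ∑ W_n`, `W_0 = 1`, `W_{n+1} t = ∫_0^t A s W_n s`). -/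
def TaskODE : Prop := TaskStep → ∀ (X : Type) [NormedAddCommGroup X] [NormedSpace ℝ X] [CompleteSpace X]
  (A : ℝ → X →L[ℝ] X) (C : ℝ), (∀ f, Continuous fun s => A s f) → (∀ s, ‖A s‖ ≤ C) →
  ∃ W : ℝ → X →L[ℝ] X, (∀ f, Continuous fun t => W t f) ∧ ∀ f t, W t f = f + ∫ s in (0 : ℝ)..t, A s (W s f)

/-- the conclusion of (A2) -/
def ODEStmt : Prop := ∀ (X : Type) [NormedAddCommGroup X] [NormedSpace ℝ X] [CompleteSpace X]
  (A : ℝ → X →L[ℝ] X) (C : ℝ), (∀ f, Continuous fun s => A s f) → (∀ s, ‖A s‖ ≤ C) →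
  ∃ W : ℝ → X →L[ℝ] X, (∀ f, Continuous fun t => W t f) ∧ ∀ f t, W t f = f + ∫ s in (0 : ℝ)..t, A s (W s f)

/-- (A3) uniqueness (Gronwall, `|t|` in both directions). -/
def TaskUniq : Prop := ∀ (X : Type) [NormedAddCommGroup X] [NormedSpace ℝ X] [CompleteSpace X]
  (A : ℝ → X →L[ℝ] X) (C : ℝ) (w : ℝ → X), (∀ f, Continuous fun s => A s f) → (∀ s, ‖A s‖ ≤ C) →
  Continuous w → (∀ t, w t = ∫ s in (0 : ℝ)..t, A s (w s)) → ∀ t, w t = 0

/-- the perturbed group: variation of constants -/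
def Duh {X : Type} [NormedAddCommGroup X] [NormedSpace ℝ X] (U V : ℝ → X →L[ℝ] X) (B : X →L[ℝ] X) : Prop :=
  ∀ f t, V t f = U t f + ∫ s in (0 : ℝ)..t, U (t - s) (B (V s f))

/-- (A4) existence of the perturbed family: `V t = U t * W t`, `A s = U (-s) * B * U s`, `‖A s‖ ≤ ‖B‖`. -/
def TaskPert : Prop := ODEStmt → ∀ (X : Type) [NormedAddCommGroup X] [NormedSpace ℝ X] [CompleteSpace X]
  (U : ℝ → X →L[ℝ] X) (B : X →L[ℝ] X), IsGrp U → (∀ t, ‖U t‖ ≤ Real.exp (-t)) →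
  ∃ V : ℝ → X →L[ℝ] X, (∀ f, Continuous fun t => V t f) ∧ Duh U V B

/-- (A5) uniqueness for the equation of variation of constants (from A3, `w t = U (-t) (v t)`). -/
def TaskDuhUniq : Prop := TaskUniq → ∀ (X : Type) [NormedAddCommGroup X] [NormedSpace ℝ X] [CompleteSpace X]
  (U : ℝ → X →L[ℝ] X) (B : X →L[ℝ] X) (v : ℝ → X), IsGrp U → (∀ t, ‖U t‖ ≤ Real.exp (-t)) →
  Continuous v → (∀ t, v t = ∫ s in (0 : ℝ)..t, U (t - s) (B (v s))) → ∀ t, v t = 0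

/-- the conclusion of (A5) -/
def DuhUniqStmt : Prop := ∀ (X : Type) [NormedAddCommGroup X] [NormedSpace ℝ X] [CompleteSpace X]
  (U : ℝ → X →L[ℝ] X) (B : X →L[ℝ] X) (v : ℝ → X), IsGrp U → (∀ t, ‖U t‖ ≤ Real.exp (-t)) →
  Continuous v → (∀ t, v t = ∫ s in (0 : ℝ)..t, U (t - s) (B (v s))) → ∀ t, v t = 0

/-- (A6) the group law for `V`: `t ↦ V (t + s) f - V t (V s f)` solves the homogeneous equation. -/
def TaskGrp : Prop := DuhUniqStmt → ∀ (X : Type) [NormedAddCommGroup X] [NormedSpace ℝ X] [CompleteSpace X]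
  (U V : ℝ → X →L[ℝ] X) (B : X →L[ℝ] X), IsGrp U → (∀ t, ‖U t‖ ≤ Real.exp (-t)) →
  (∀ f, Continuous fun t => V t f) → Duh U V B → IsGrp V

/-- (A7) the generator of `V` is that of `U` plus `B`. (`t⁻¹ ∫_0^t U (t - s) (B (V s f)) ds → B f`.) -/
def TaskGen : Prop := ∀ (X : Type) [NormedAddCommGroup X] [NormedSpace ℝ X] [CompleteSpace X]
  (U V : ℝ → X →L[ℝ] X) (B : X →L[ℝ] X), IsGrp U → (∀ t, ‖U t‖ ≤ Real.exp (-t)) → IsGrp V → Duh U V B →
  ∀ f g, Gen V f (g + B f) ↔ Gen U f g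

/-- (A8) a vector in the kernel of the generator is fixed. (The right derivative of the continuous
function `t ↦ V t u` vanishes.) -/
def TaskFix : Prop := ∀ (X : Type) [NormedAddCommGroup X] [NormedSpace ℝ X] [CompleteSpace X]
  (V : ℝ → X →L[ℝ] X) (u : X), IsGrp V → Gen V u 0 → ∀ t, 0 ≤ t → V t u = u

/-- (A9) strong integrals of rank one operators are compact (approximate the continuous function `h` on
`[0, t]` uniformly by step functions: finite rank operators; or: the image of the unit ball is in the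
closed convex hull of a compact set). -/
def TaskRankOne : Prop := ∀ (X : Type) [NormedAddCommGroup X] [NormedSpace ℝ X] [CompleteSpace X]
  (h : ℝ → X) (ψ : ℝ → X →L[ℝ] ℝ) (C t : ℝ) (K : X →L[ℝ] X), 0 ≤ t → Continuous h →
  (∀ f, Continuous fun s => ψ s f) → (∀ s, 0 ≤ s → s ≤ t → ‖ψ s‖ ≤ C) →
  (∀ f, K f = ∫ s in (0 : ℝ)..t, ψ s f • h s) → IsCompactOperator K

/-- (A10) `V t - U t` is compact for a rank one perturbation (A9 with `h s = U (t - s) h`,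
`ψ s = φ ∘ V s`; local boundedness of `V` by the Banach-Steinhaus theorem on `[0, t]`). -/
def TaskCompact : Prop := TaskRankOne → ∀ (X : Type) [NormedAddCommGroup X] [NormedSpace ℝ X]
  [CompleteSpace X] (U V : ℝ → X →L[ℝ] X) (B : X →L[ℝ] X) (φ : X →L[ℝ] ℝ) (h : X), IsGrp U → IsGrp V →
  Duh U V B → (∀ f, B f = φ f • h) → ∀ t, 0 ≤ t → IsCompactOperator (V t - U t)

/-- (A11) scalar Volterra equations with positive data have positive solutions (Gronwall for the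
negative part). -/
def TaskVolt : Prop := ∀ c g k : ℝ → ℝ, Continuous c → Continuous g → Continuous k →
  (∀ t, 0 ≤ t → 0 ≤ g t) → (∀ t, 0 ≤ t → 0 ≤ k t) →
  (∀ t, 0 ≤ t → c t = g t + ∫ s in (0 : ℝ)..t, c s * k (t - s)) → ∀ t, 0 ≤ t → 0 ≤ c t

/-- (A12) positivity of `V` (`c t = φ (V t f)` solves a Volterra equation with `k t = φ (U t h)`). -/
def TaskVpos : Prop := TaskVolt → ∀ (U V : ℝ → X1 →L[ℝ] X1) (B : X1 →L[ℝ] X1) (φ : X1 →L[ℝ] ℝ) (h : X1),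
  IsGrp U → IsGrp V → Duh U V B → (∀ f, B f = φ f • h) → 0 ≤ h → (∀ f, 0 ≤ f → 0 ≤ φ f) →
  (∀ t f, 0 ≤ t → 0 ≤ f → 0 ≤ U t f) → ∀ t f, 0 ≤ t → 0 ≤ f → 0 ≤ V t f

/-- (A13) the essential radius does not see compact operators (`n = 0` in the infimum). -/
def TaskEss : Prop := ∀ (X : Type) [NormedAddCommGroup X] [NormedSpace ℝ X] (T S : X →L[ℝ] X),
  IsCompactOperator (T - S) → essRad T ≤ ‖S‖

/-- (A14) a fixed vector. -/
def TaskRad : Prop := ∀ (X : Type) [NormedAddCommGroup X] [NormedSpace ℝ X] (T : X →L[ℝ] X) (u : X),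
  u ≠ 0 → T u = u → 1 ≤ rad T

end Pool.Agent.Q170.GF
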