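import Pool.Agent.Q170.GF.Stmts

namespace Pool.Agent.Q170.GF.TCompact

open Pool.Agent.Q170.GF
open MeasureTheory Set Filter Topology

theorem main : Pool.Agent.Q170.GF.TaskCompact := by
  intro hR X _ _ _ U V B φ h hU hV hD hB t ht
  obtain ⟨C, hC⟩ : ∃ C, ∀ i : Icc (0 : ℝ) t, ‖φ.comp (V i)‖ ≤ C := by
    apply banach_steinhaus
    intro f
    have hcont : Continuous fun s => ‖(φ.comp (V s)) f‖ := by
      have := φ.continuous.comp (hV.cont f)
      exact this.norm
    obtain ⟨C, hC⟩ := (isCompact_Icc (a := (0 : ℝ)) (b := t)).bddAbove_image hcont.continuousOn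
    exact ⟨C, fun i => hC ⟨i, i.2, rfl⟩⟩
  refine hR X (fun s => U (t - s) h) (fun s => φ.comp (V s)) C t (V t - U t) ht ?_ ?_ ?_ ?_
  · exact (hU.cont h).comp (continuous_const.sub continuous_id)
  · intro f
    exact φ.continuous.comp (hV.cont f)
  · intro s hs1 hs2
    exact hC ⟨s, hs1, hs2⟩
  · intro f
    rw [ContinuousLinearMap.sub_apply, hD f t, add_sub_cancel_left]
    apply intervalIntegral.integral_congr
    intro s _
    simp only [hB, map_smul, ContinuousLinearMap.comp_apply]

end Pool.Agent.Q170.GF.TCompact
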