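import Pool.Agent.Q170.GF.Stmts

namespace Pool.Agent.Q170.GF.TDuhUniq

open MeasureTheory Set Filter Topology
open Pool.Agent.Q170.GF

theorem jc {X : Type} [NormedAddCommGroup X] [NormedSpace ℝ X] {U : ℝ → X →L[ℝ] X}
    (hU : IsGrp U) (hb : ∀ t, ‖U t‖ ≤ Real.exp (-t)) {φ : ℝ → ℝ} (hφ : Continuous φ) {g : ℝ → X}
    (hg : Continuous g) : Continuous fun s => U (φ s) (g s) := by
  rw [continuous_iff_continuousAt]
  intro s0
  have h1 : Tendsto (fun s => U (φ s) (g s0)) (𝓝 s0) (𝓝 (U (φ s0) (g s0))) :=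
    ((hU.cont (g s0)).comp hφ).tendsto s0
  have h2 : Tendsto (fun s => U (φ s) (g s - g s0)) (𝓝 s0) (𝓝 0) := by
    refine squeeze_zero_norm (a := fun s => Real.exp (-φ s) * ‖g s - g s0‖) (fun s => ?_) ?_
    · refine ((U (φ s)).le_opNorm _).trans ?_
      exact mul_le_mul_of_nonneg_right (hb _) (norm_nonneg _)
    · have h3 : Continuous fun s => Real.exp (-φ s) * ‖g s - g s0‖ :=
        (Real.continuous_exp.comp hφ.neg).mul (hg.sub continuous_const).norm
      have h4 := h3.tendsto s0
      simpa using h4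
  have h5 := h2.add h1
  rw [zero_add] at h5
  refine h5.congr fun s => ?_
  rw [← map_add, sub_add_cancel]

theorem main : TaskDuhUniq := by
  intro hA X _ _ _ U B v hU hb hv heq
  have hinv : ∀ s x, U s (U (-s) x) = x := by
    intro s x
    have h := congrArg (fun L : X →L[ℝ] X => L x) (hU.add s (-s))
    rw [add_neg_cancel, hU.zero] at h
    exact h.symm
  have hadd : ∀ s t x, U s (U t x) = U (s + t) x := by
    intro s t x
    rw [hU.add]
    rfl
  set w : ℝ → X := fun t => U (-t) (v t) with hw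
  have hwc : Continuous w := jc hU hb continuous_neg hv
  have hvw : ∀ s, v s = U s (w s) := fun s => (hinv s (v s)).symm
  have hmain := hA X (fun s => (U (-s)).comp (B.comp (U s))) ‖B‖ w ?_ ?_ hwc ?_
  · intro t
    rw [hvw, hmain t, map_zero]
  · intro f
    exact jc hU hb continuous_neg (B.continuous.comp (hU.cont f))
  · intro s
    refine ContinuousLinearMap.opNorm_le_bound _ (norm_nonneg _) fun x => ?_
    show ‖U (-s) (B (U s x))‖ ≤ ‖B‖ * ‖x‖
    calc ‖U (-s) (B (U s x))‖ ≤ Real.exp (-(-s)) * ‖B (U s x)‖ :=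
          ((U (-s)).le_opNorm _).trans (mul_le_mul_of_nonneg_right (hb _) (norm_nonneg _))
      _ ≤ Real.exp (-(-s)) * (‖B‖ * (Real.exp (-s) * ‖x‖)) := by
          refine mul_le_mul_of_nonneg_left ?_ (Real.exp_pos _).le
          refine (B.le_opNorm _).trans (mul_le_mul_of_nonneg_left ?_ (norm_nonneg _))
          exact ((U s).le_opNorm _).trans (mul_le_mul_of_nonneg_right (hb _) (norm_nonneg _))
      _ = (Real.exp (-(-s)) * Real.exp (-s)) * (‖B‖ * ‖x‖) := by ring
      _ = ‖B‖ * ‖x‖ := by rw [← Real.exp_add]; simp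
  · intro t
    show U (-t) (v t) = ∫ s in (0 : ℝ)..t, U (-s) (B (U s (w s)))
    rw [heq t, ← ContinuousLinearMap.intervalIntegral_comp_comm]
    · refine intervalIntegral.integral_congr fun s _ => ?_
      show U (-t) (U (t - s) (B (v s))) = U (-s) (B (U s (w s)))
      rw [hadd, ← hvw]
      congr 2
      ring
    · exact (jc hU hb (continuous_const.sub continuous_id)
        (B.continuous.comp hv)).intervalIntegrable _ _

end Pool.Agent.Q170.GF.TDuhUniq
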