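import Pool.Agent.Q170.GF.Stmts

set_option autoImplicit false

namespace Pool.Agent.Q170.GF.TEig
open Pool.Agent.Q170.GF
open MeasureTheory Set Filter Topology

theorem vol_le_mu : (volume.restrict (Ioi (0 : ℝ))) ≪ mu := by
  unfold mu
  refine withDensity_absolutelyContinuous' (by fun_prop) ?_
  rw [ae_restrict_iff' measurableSet_Ioi]
  filter_upwards with x hx
  simpa using hx

theorem mu_le_vol : mu ≪ (volume.restrict (Ioi (0 : ℝ))) :=
  withDensity_absolutelyContinuous _ _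

theorem ae_mu_iff (P : ℝ → Prop) : (∀ᵐ y ∂mu, P y) ↔ ∀ᵐ y : ℝ, 0 < y → P y := by
  have h : (∀ᵐ y ∂(volume.restrict (Ioi (0 : ℝ))), P y) ↔ ∀ᵐ y : ℝ, y ∈ Ioi (0 : ℝ) → P y :=
    ae_restrict_iff' measurableSet_Ioi
  constructor
  · intro h1
    exact h.1 (vol_le_mu.ae_le h1)
  · intro h1
    exact mu_le_vol.ae_le (h.2 h1)

theorem ae_dil (P : ℝ → Prop) (c : ℝ) (hc : 0 < c) (h : ∀ᵐ y ∂mu, P y) : ∀ᵐ y ∂mu, P (y * c) := by
  rw [ae_mu_iff] at h ⊢
  have h1 : ∀ᵐ y ∂(Measure.map (fun x : ℝ => x * c) volume), 0 < y → P y := by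
    rw [Real.map_volume_mul_right hc.ne']
    exact Measure.ae_smul_measure h _
  have h2 := ae_of_ae_map (by fun_prop) h1
  filter_upwards [h2] with y hy h0
  exact hy (mul_pos h0 hc)

theorem norm_bd (f : X1) (A B e : ℝ) (hA : 0 ≤ A) (hB : 0 ≤ B) (he : 1 ≤ e)
    (hf : ∀ᵐ y ∂mu, ‖f y‖ ≤ if y < 1 then A * y⁻¹ else if y < e then B * y⁻¹ else 0) :
    ‖f‖ ≤ A + B * (e - 1) := by
  have hR : 0 ≤ A + B * (e - 1) := by nlinarith
  rw [Lp.norm_def, eLpNorm_one_eq_lintegral_enorm]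
  refine ENNReal.toReal_le_of_le_ofReal hR ?_
  set g : ℝ → ℝ := fun y => if y < 1 then A * y⁻¹ else if y < e then B * y⁻¹ else 0 with hg
  have hgm : Measurable g := by
    refine Measurable.ite measurableSet_Iio (by fun_prop) ?_
    exact Measurable.ite measurableSet_Iio (by fun_prop) measurable_const
  calc ∫⁻ y, ‖f y‖ₑ ∂mu ≤ ∫⁻ y, ENNReal.ofReal (g y) ∂mu := by
        refine lintegral_mono_ae ?_
        filter_upwards [hf] with y hy
        rw [← ofReal_norm]
        exact ENNReal.ofReal_le_ofReal hy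
    _ = ∫⁻ y in Ioi (0 : ℝ), ENNReal.ofReal y * ENNReal.ofReal (g y) := by
        unfold mu
        rw [lintegral_withDensity_eq_lintegral_mul _ (by fun_prop) (by fun_prop)]
        rfl
    _ ≤ ∫⁻ y in Ioi (0 : ℝ), ((Ioo (0 : ℝ) 1).indicator (fun _ => ENNReal.ofReal A) y +
          (Ico (1 : ℝ) e).indicator (fun _ => ENNReal.ofReal B) y) := by
        refine setLIntegral_mono' measurableSet_Ioi fun y hy => ?_
        have hy0 : 0 < y := hy
        rw [← ENNReal.ofReal_mul hy0.le]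
        by_cases h1 : y < 1
        · have e1 : y * g y = A := by
            simp only [hg, if_pos h1]
            field_simp
          rw [e1, Set.indicator_of_mem (show y ∈ Ioo (0 : ℝ) 1 from ⟨hy0, h1⟩)]
          exact le_self_add
        · by_cases h2 : y < e
          · have e1 : y * g y = B := by
              simp only [hg, if_neg h1, if_pos h2]
              field_simp
            rw [e1, Set.indicator_of_mem (show y ∈ Ico (1 : ℝ) e from ⟨not_lt.1 h1, h2⟩)]
            exact le_add_self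
          · have e1 : y * g y = 0 := by
              simp only [hg, if_neg h1, if_neg h2, mul_zero]
            rw [e1, ENNReal.ofReal_zero]
            exact zero_le
    _ ≤ ∫⁻ y, ((Ioo (0 : ℝ) 1).indicator (fun _ => ENNReal.ofReal A) y +
          (Ico (1 : ℝ) e).indicator (fun _ => ENNReal.ofReal B) y) := setLIntegral_le_lintegral _ _
    _ = ENNReal.ofReal A * volume (Ioo (0 : ℝ) 1) + ENNReal.ofReal B * volume (Ico (1 : ℝ) e) := by
        rw [lintegral_add_left (by exact measurable_const.indicator measurableSet_Ioo),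
          lintegral_indicator_const measurableSet_Ioo, lintegral_indicator_const measurableSet_Ico]
    _ = ENNReal.ofReal (A + B * (e - 1)) := by
        rw [Real.volume_Ioo, Real.volume_Ico, ← ENNReal.ofReal_mul hA, ← ENNReal.ofReal_mul hB,
          ← ENNReal.ofReal_add (by nlinarith) (mul_nonneg hB (by linarith))]
        congr 1
        ring

theorem key (U : ℝ → X1 →L[ℝ] X1) (h u : X1) (hU : IsU U) (hh : IsH h) (hu : IsFix u) (t : ℝ)
    (ht : 0 < t) : ‖t⁻¹ • (U t u - u) - (-((2 : ℝ) • h))‖ ≤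
      |t⁻¹ * (Real.exp (-2 * t) - 1) + 2| + t⁻¹ * (1 - Real.exp (-2 * t)) * (Real.exp t - 1) := by
  set E : ℝ := Real.exp (-t) with hE
  have hE0 : 0 < E := Real.exp_pos _
  have hE1 : E < 1 := by
    rw [hE, Real.exp_lt_one_iff]; linarith
  have e2 : Real.exp (-2 * t) = E ^ 2 := by
    rw [hE, ← Real.exp_nat_mul]; congr 1; push_cast; ring
  have e3 : Real.exp (-3 * t) = E ^ 3 := by
    rw [hE, ← Real.exp_nat_mul]; congr 1; push_cast; ring
  have et : Real.exp t = E⁻¹ := by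
    rw [hE, ← Real.exp_neg, neg_neg]
  have hti : 0 < t⁻¹ := inv_pos.2 ht
  have hEi : 1 ≤ E⁻¹ := (one_le_inv₀ hE0).2 hE1.le
  have hE2 : E ^ 2 ≤ 1 := by nlinarith
  rw [e2, et]
  refine norm_bd _ _ _ _ (abs_nonneg _) (mul_nonneg hti.le (by linarith)) hEi ?_
  have hu' := ae_dil (fun y => u y = if y < 1 then y⁻¹ else (y ^ 3)⁻¹) E hE0 hu
  have hpos : ∀ᵐ y ∂mu, 0 < y := (ae_mu_iff _).2 (by filter_upwards with y hy using hy)
  filter_upwards [Lp.coeFn_sub (t⁻¹ • (U t u - u)) (-((2 : ℝ) • h)), Lp.coeFn_smul t⁻¹ (U t u - u),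
    Lp.coeFn_sub (U t u) u, Lp.coeFn_neg ((2 : ℝ) • h), Lp.coeFn_smul (2 : ℝ) h, hU t u, hh, hu, hu',
    hpos] with y f1 f2 f3 f4 f5 f6 f7 f8 f9 y0
  rw [f1, Pi.sub_apply, f2, Pi.smul_apply, f3, Pi.sub_apply, f4, Pi.neg_apply, f5, Pi.smul_apply, f6,
    f9, f7, f8, e3]
  simp only [smul_eq_mul]
  have hyi : 0 < y⁻¹ := inv_pos.2 y0
  by_cases h1 : y < 1
  · have h2 : y * E < 1 := by nlinarith
    rw [if_pos h1, if_pos h1, if_pos h1, if_pos h2]
    have e1 : t⁻¹ * (E ^ 3 * (y * E)⁻¹ - y⁻¹) - -(2 * y⁻¹) = (t⁻¹ * (E ^ 2 - 1) + 2) * y⁻¹ := by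
      field_simp
      ring
    rw [e1, Real.norm_eq_abs, abs_mul, abs_of_pos hyi]
  · push Not at h1
    by_cases h3 : y < E⁻¹
    · have h2 : y * E < 1 := by
        have := mul_lt_mul_of_pos_right h3 hE0
        rwa [inv_mul_cancel₀ hE0.ne'] at this
      rw [if_neg (not_lt.2 h1), if_neg (not_lt.2 h1), if_neg (not_lt.2 h1), if_pos h2, if_pos h3]
      have e1 : t⁻¹ * (E ^ 3 * (y * E)⁻¹ - (y ^ 3)⁻¹) - -(2 * 0) =
          -(t⁻¹ * (((y ^ 2)⁻¹ - E ^ 2) * y⁻¹)) := by
        field_simp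
        ring
      have h4 : (y ^ 2)⁻¹ ≤ 1 := inv_le_one_of_one_le₀ (one_le_pow₀ h1)
      have h5 : E ^ 2 ≤ (y ^ 2)⁻¹ := by
        rw [le_inv_comm₀ (by positivity) (by positivity), ← inv_pow]
        exact pow_le_pow_left₀ y0.le h3.le 2
      rw [e1, Real.norm_eq_abs, abs_neg, abs_of_nonneg (by
        apply mul_nonneg hti.le (mul_nonneg (by linarith) hyi.le)), mul_assoc]
      refine mul_le_mul_of_nonneg_left ?_ hti.le
      exact mul_le_mul_of_nonneg_right (by linarith) hyi.le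
    · push Not at h3
      have h2 : ¬ y * E < 1 := by
        rw [not_lt]
        have := mul_le_mul_of_nonneg_right h3 hE0.le
        rwa [inv_mul_cancel₀ hE0.ne'] at this
      rw [if_neg (not_lt.2 h1), if_neg (not_lt.2 h1), if_neg (not_lt.2 h1), if_neg h2,
        if_neg (not_lt.2 h3)]
      have e1 : t⁻¹ * (E ^ 3 * ((y * E) ^ 3)⁻¹ - (y ^ 3)⁻¹) - -(2 * 0) = 0 := by
        field_simp
        ring
      rw [e1, norm_zero]

theorem main : Pool.Agent.Q170.GF.TaskEig := by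
  intro U h u hU hh hu
  unfold Gen
  rw [tendsto_iff_norm_sub_tendsto_zero]
  refine squeeze_zero' (Eventually.of_forall fun _ => norm_nonneg _)
    (g := fun t : ℝ => |t⁻¹ * (Real.exp (-2 * t) - 1) + 2| +
      t⁻¹ * (1 - Real.exp (-2 * t)) * (Real.exp t - 1)) ?_ ?_
  · filter_upwards [self_mem_nhdsWithin] with t ht
    exact key U h u hU hh hu t ht
  · have hd : HasDerivAt (fun s : ℝ => Real.exp (-2 * s)) (-2) 0 := by
      have h1 : HasDerivAt (fun s : ℝ => -2 * s) (-2) 0 := by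
        simpa using (hasDerivAt_id (0 : ℝ)).const_mul (-2)
      have h2 := h1.exp
      simpa using h2
    have hs := hd.tendsto_slope_zero
    have h1 : Tendsto (fun t : ℝ => t⁻¹ * (Real.exp (-2 * t) - 1)) (𝓝[>] 0) (𝓝 (-2)) := by
      have h2 := hs.mono_left (nhdsGT_le_nhdsNE (0 : ℝ))
      simpa using h2
    have h3 : Tendsto (fun t : ℝ => |t⁻¹ * (Real.exp (-2 * t) - 1) + 2|) (𝓝[>] 0) (𝓝 0) := by
      have := (h1.add_const 2).abs
      simpa using this
    have h4 : Tendsto (fun t : ℝ => t⁻¹ * (1 - Real.exp (-2 * t))) (𝓝[>] 0) (𝓝 2) := by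
      have := h1.neg
      rw [neg_neg] at this
      refine this.congr fun t => ?_
      ring
    have h5 : Tendsto (fun t : ℝ => Real.exp t - 1) (𝓝[>] 0) (𝓝 0) := by
      have h6 : Tendsto (fun t : ℝ => Real.exp t - 1) (𝓝 0) (𝓝 (Real.exp 0 - 1)) :=
        (Real.continuous_exp.sub continuous_const).tendsto 0
      rw [Real.exp_zero, sub_self] at h6
      exact h6.mono_left nhdsWithin_le_nhds
    have := h3.add (h4.mul h5)
    simpa using this

end Pool.Agent.Q170.GF.TEig
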