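import Pool.Agent.Q170.GF.Stmts

/-!
# GF.TaskEss: the essential spectral radius does not see compact operators
-/

open MeasureTheory Set Filter Topology

namespace Pool.Agent.Q170.GF.TEss

open Pool.Agent.Q170.GF

variable {X : Type} [NormedAddCommGroup X] [NormedSpace ℝ X]

theorem essNorm_nonneg (T : X →L[ℝ] X) : 0 ≤ essNorm T := by
  unfold essNorm
  apply Real.sInf_nonneg
  rintro c ⟨K, -, rfl⟩
  exact norm_nonneg _

theorem essNorm_le (T S : X →L[ℝ] X) (h : IsCompactOperator (T - S)) : essNorm T ≤ ‖S‖ := by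
  unfold essNorm
  apply csInf_le
  · refine ⟨0, ?_⟩
    rintro c ⟨K, -, rfl⟩
    exact norm_nonneg _
  · exact ⟨T - S, h, by rw [sub_sub_cancel]⟩

theorem essRad_le (T : X →L[ℝ] X) : essRad T ≤ essNorm T := by
  have hb : BddBelow (Set.range fun n : ℕ => essNorm (T ^ (n + 1)) ^ ((1 : ℝ) / (n + 1))) := by
    refine ⟨0, ?_⟩
    rintro c ⟨n, rfl⟩
    exact Real.rpow_nonneg (essNorm_nonneg _) _
  have h := ciInf_le hb 0
  have e : essNorm (T ^ (0 + 1)) ^ ((1 : ℝ) / ((0 : ℕ) + 1)) = essNorm T := by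
    rw [zero_add, pow_one]
    norm_num
  exact h.trans e.le

theorem main : Pool.Agent.Q170.GF.TaskEss := by
  intro X _ _ T S h
  exact (essRad_le T).trans (essNorm_le T S h)

end Pool.Agent.Q170.GF.TEss
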