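import Pool.Agent.Q170.GF.Stmts

set_option autoImplicit false

open MeasureTheory Set Filter Topology

namespace Pool.Agent.Q170.GF.TFix

open Pool.Agent.Q170.GF

theorem main : Pool.Agent.Q170.GF.TaskFix := by
  intro X _ _ _ V u hV hG t ht
  have hcont : Continuous fun t => V t u := hV.cont u
  have hder : ∀ x : ℝ, HasDerivWithinAt (fun t => V t u) 0 (Ici x) x := by
    intro x
    rw [← hasDerivWithinAt_Ioi_iff_Ici, hasDerivWithinAt_iff_tendsto_slope' (by simp)]
    have h1 : Tendsto (fun y : ℝ => y - x) (𝓝[>] x) (𝓝[>] 0) := by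
      refine tendsto_nhdsWithin_iff.2 ⟨?_, ?_⟩
      · have : Tendsto (fun y : ℝ => y - x) (𝓝 x) (𝓝 (x - x)) :=
          (continuous_id.sub continuous_const).tendsto x
        rw [sub_self] at this
        exact this.mono_left nhdsWithin_le_nhds
      · filter_upwards [self_mem_nhdsWithin] with y hy
        exact sub_pos.2 (mem_Ioi.1 hy)
    have h2 := ((V x).continuous.tendsto (0 : X)).comp (hG.comp h1)
    rw [map_zero] at h2
    refine h2.congr fun y => ?_
    show V x ((y - x)⁻¹ • (V (y - x) u - u)) = slope (fun t => V t u) x y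
    have h3 : V y u = V x (V (y - x) u) := by
      have := hV.add x (y - x)
      rw [add_sub_cancel] at this
      rw [this]
      rfl
    rw [slope_def_module, h3, map_smul, map_sub]
  have h := constant_of_has_deriv_right_zero (f := fun t => V t u) (a := 0) (b := t)
    hcont.continuousOn (fun x _ => hder x) t ⟨ht, le_rfl⟩
  rw [h, hV.zero]
  rfl

end Pool.Agent.Q170.GF.TFix
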