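import Pool.Agent.Q170.GF.Stmts

open Pool.Agent.Q170.GF
open MeasureTheory Set Filter Topology

namespace Pool.Agent.Q170.GF.TFixEx

private noncomputable def g (x : ℝ) : ℝ := if x < 1 then x⁻¹ else (x ^ 3)⁻¹

private theorem g_meas : Measurable g := by
  unfold g
  refine Measurable.ite (measurableSet_lt measurable_id measurable_const) measurable_inv ?_
  exact (measurable_id.pow_const 3).inv

private theorem dens_meas : Measurable (fun x : ℝ => ENNReal.ofReal x) :=
  ENNReal.measurable_ofReal

private theorem int1 : IntegrableOn (fun x : ℝ => g x * (ENNReal.ofReal x).toReal) (Ioo 0 1) := by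
  have h1 : IntegrableOn (fun _ : ℝ => (1 : ℝ)) (Ioo 0 1) := by
    exact integrableOn_const (by simp) (by simp)
  refine h1.congr_fun ?_ measurableSet_Ioo
  intro x hx
  have hx0 : 0 < x := hx.1
  have hx1 : x < 1 := hx.2
  simp only [g, if_pos hx1, ENNReal.toReal_ofReal hx0.le]
  field_simp

private theorem int2 : IntegrableOn (fun x : ℝ => g x * (ENNReal.ofReal x).toReal) (Ici 1) := by
  rw [integrableOn_Ici_iff_integrableOn_Ioi]
  have h1 : IntegrableOn (fun x : ℝ => x ^ (-2 : ℝ)) (Ioi 1) :=
    integrableOn_Ioi_rpow_of_lt (by norm_num) one_pos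
  refine h1.congr_fun ?_ measurableSet_Ioi
  intro x hx
  have hx1 : 1 < x := hx
  have hx0 : 0 < x := by linarith
  simp only [g, if_neg (not_lt.2 hx1.le), ENNReal.toReal_ofReal hx0.le]
  rw [Real.rpow_neg hx0.le]
  have : x ^ (2 : ℝ) = x ^ 2 := by exact_mod_cast Real.rpow_natCast x 2
  rw [this]
  field_simp

private theorem g_int : Integrable g mu := by
  unfold mu
  rw [integrable_withDensity_iff dens_meas (Filter.Eventually.of_forall fun x => ENNReal.ofReal_lt_top)]
  have h : IntegrableOn (fun x : ℝ => g x * (ENNReal.ofReal x).toReal) (Ioi 0) := by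
    rw [← Ioo_union_Ici_eq_Ioi (zero_lt_one' ℝ)]
    exact int1.union int2
  exact h

theorem main : Pool.Agent.Q170.GF.TaskFixEx := by
  refine ⟨?_, ?_⟩
  · have hm : MemLp g 1 mu := memLp_one_iff_integrable.2 g_int
    exact ⟨hm.toLp g, hm.coeFn_toLp⟩
  · intro u hu h0
    rw [h0] at hu
    have h1 : ∀ᵐ x ∂mu, g x = 0 := by
      have hz := Lp.coeFn_zero (E := ℝ) (p := (1 : ENNReal)) (μ := mu)
      filter_upwards [hu, hz] with x hx hx'
      have : g x = (((0 : X1) : ℝ → ℝ)) x := hx.symm
      rw [this, hx']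
      rfl
    unfold mu at h1
    rw [ae_withDensity_iff dens_meas] at h1
    have h2 : ∀ᵐ x : ℝ ∂(volume.restrict (Ioi (0 : ℝ))), x ∈ Ioi (0 : ℝ) :=
      ae_restrict_mem measurableSet_Ioi
    have h3 : ∀ᵐ x : ℝ ∂(volume.restrict (Ioi (0 : ℝ))), False := by
      filter_upwards [h1, h2] with x hx hx0
      have hx0' : 0 < x := hx0
      have hne : ENNReal.ofReal x ≠ 0 := by
        rw [Ne, ENNReal.ofReal_eq_zero, not_le]
        exact hx0'
      have hg := hx hne
      have hgp : 0 < g x := by
        unfold g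
        split_ifs <;> positivity
      exact absurd hg hgp.ne'
    rw [Filter.eventually_false_iff_eq_bot, ae_eq_bot, Measure.restrict_eq_zero, Real.volume_Ioi] at h3
    exact ENNReal.top_ne_zero h3

end Pool.Agent.Q170.GF.TFixEx
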