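import Pool.Agent.Q170.GF.Stmts

/-! (C10) of the blueprint for `MP_bbd370_an` (helper7). -/

namespace Pool.Agent.Q170.GF.TFrag
open MeasureTheory Set Filter Topology Pool.Agent.Q170.GF

theorem main : Pool.Agent.Q170.GF.TaskFrag := by
  intro φ h hφ hh f
  filter_upwards [Lp.coeFn_smul (φ f) h, hh] with x hx1 hx2
  rw [hx1, Pi.smul_apply, hx2, smul_eq_mul, hφ f]
  by_cases hx : x < 1
  · rw [if_pos hx]
    have e : (fun y => 2 * bb x y * f y) = (Ioi (1:ℝ)).indicator (fun y => x⁻¹ * 2 * (y * f y)) := by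
      funext y
      by_cases hy : 1 < y
      · rw [Set.indicator_of_mem (mem_Ioi.mpr hy), bb, if_pos ⟨hx, hy⟩]
        rw [div_eq_mul_inv]; ring
      · rw [Set.indicator_of_notMem (fun h => hy (mem_Ioi.mp h)), bb, if_neg (fun h => hy h.2)]
        ring
    rw [e, setIntegral_indicator measurableSet_Ioi]
    have hs : Ioi x ∩ Ioi (1:ℝ) = Ioi 1 := by
      ext y
      simp only [mem_inter_iff, mem_Ioi]
      exact ⟨fun h => h.2, fun h => ⟨hx.trans h, h⟩⟩
    rw [hs, integral_const_mul]
    ring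
  · rw [if_neg hx]
    have e : (fun y => 2 * bb x y * f y) = fun _ => 0 := by
      funext y
      rw [bb, if_neg (fun h => hx h.1)]
      ring
    rw [e]
    simp

end Pool.Agent.Q170.GF.TFrag
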