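import Pool.Agent.Q170.GF.Stmts

set_option autoImplicit false

namespace Pool.Agent.Q170.GF.TGen

open Pool.Agent.Q170.GF
open MeasureTheory Set Filter Topology

variable {X : Type} [NormedAddCommGroup X] [NormedSpace ℝ X]

lemma cont_apply {U : ℝ → X →L[ℝ] X} (hU : ∀ f, Continuous fun t => U t f)
    (hn : ∀ t, ‖U t‖ ≤ Real.exp (-t)) {a : ℝ → ℝ} (ha : Continuous a) {x : ℝ → X}
    (hx : Continuous x) : Continuous fun s => U (a s) (x s) := by
  rw [continuous_iff_continuousAt]
  intro s0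
  have h1 : Tendsto (fun s => U (a s) (x s - x s0)) (𝓝 s0) (𝓝 0) := by
    refine squeeze_zero_norm (a := fun s => Real.exp (-a s) * ‖x s - x s0‖) (fun s => ?_) ?_
    · exact ((U (a s)).le_opNorm _).trans (mul_le_mul_of_nonneg_right (hn _) (norm_nonneg _))
    · have h2 : Continuous fun s => Real.exp (-a s) * ‖x s - x s0‖ := by fun_prop
      have h3 := h2.tendsto s0
      simpa using h3
  have h2 : Tendsto (fun s => U (a s) (x s0)) (𝓝 s0) (𝓝 (U (a s0) (x s0))) :=
    ((hU (x s0)).comp ha).tendsto s0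
  have h3 := h1.add h2
  simp only [zero_add] at h3
  refine h3.congr fun s => ?_
  rw [map_sub, sub_add_cancel]

theorem main : Pool.Agent.Q170.GF.TaskGen := by
  intro X _ _ _ U V B hU hn hV hD f g
  have hk : Continuous fun s => U (-s) (B (V s f)) :=
    cont_apply hU.cont hn continuous_neg (B.continuous.comp (hV.cont f))
  have hG : HasDerivAt (fun t : ℝ => ∫ s in (0 : ℝ)..t, U (-s) (B (V s f))) (B f) 0 := by
    have h1 := (hk.integral_hasStrictDerivAt 0 0).hasDerivAt
    have h2 : U (-0) (B (V 0 f)) = B f := by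
      rw [neg_zero, hU.zero, hV.zero]
      rfl
    rw [h2] at h1
    exact h1
  have hG2 := hG.tendsto_slope_zero_right
  simp only [zero_add, intervalIntegral.integral_same, sub_zero] at hG2
  have heq : ∀ t : ℝ, ∫ s in (0 : ℝ)..t, U (t - s) (B (V s f)) =
      U t (∫ s in (0 : ℝ)..t, U (-s) (B (V s f))) := by
    intro t
    rw [← ContinuousLinearMap.intervalIntegral_comp_comm _ (hk.intervalIntegrable _ _)]
    refine intervalIntegral.integral_congr fun s _ => ?_
    show U (t - s) (B (V s f)) = U t (U (-s) (B (V s f)))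
    rw [sub_eq_add_neg, hU.add]
    rfl
  have hJ : Tendsto (fun t : ℝ => t⁻¹ • ∫ s in (0 : ℝ)..t, U (t - s) (B (V s f))) (𝓝[>] 0)
      (𝓝 (B f)) := by
    have h1 : Tendsto (fun t : ℝ => U t (t⁻¹ • (∫ s in (0 : ℝ)..t, U (-s) (B (V s f))) - B f))
        (𝓝[>] 0) (𝓝 0) := by
      refine squeeze_zero_norm (a := fun t : ℝ => Real.exp (-t) *
        ‖t⁻¹ • (∫ s in (0 : ℝ)..t, U (-s) (B (V s f))) - B f‖) (fun t => ?_) ?_
      · exact ((U t).le_opNorm _).trans (mul_le_mul_of_nonneg_right (hn _) (norm_nonneg _))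
      · have h2 : Tendsto (fun t : ℝ => Real.exp (-t)) (𝓝[>] 0) (𝓝 (Real.exp (-0))) :=
          (Continuous.tendsto (by fun_prop) (0 : ℝ)).mono_left nhdsWithin_le_nhds
        have h3 : Tendsto (fun t : ℝ =>
            ‖t⁻¹ • (∫ s in (0 : ℝ)..t, U (-s) (B (V s f))) - B f‖) (𝓝[>] 0) (𝓝 0) := by
          have := (hG2.sub_const (B f)).norm
          simpa using this
        simpa using h2.mul h3
    have h2 : Tendsto (fun t : ℝ => U t (B f)) (𝓝[>] 0) (𝓝 (B f)) := by
      have h3 := ((hU.cont (B f)).tendsto 0).mono_left (nhdsWithin_le_nhds (s := Ioi (0 : ℝ)))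
      rw [hU.zero] at h3
      exact h3
    have h4 := h1.add h2
    rw [zero_add] at h4
    refine h4.congr fun t => ?_
    rw [heq t, map_sub, sub_add_cancel, map_smul]
  have hdec : ∀ t : ℝ, t⁻¹ • (V t f - f) = t⁻¹ • (U t f - f) +
      t⁻¹ • ∫ s in (0 : ℝ)..t, U (t - s) (B (V s f)) := by
    intro t
    rw [hD f t, ← smul_add]
    congr 1
    abel
  unfold Gen
  constructor
  · intro h
    have h1 := h.sub hJ
    rw [add_sub_cancel_right] at h1
    refine h1.congr fun t => ?_
    rw [hdec t, add_sub_cancel_right]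
  · intro h
    have h1 := h.add hJ
    refine h1.congr fun t => ?_
    rw [hdec t]

end Pool.Agent.Q170.GF.TGen
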