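import Pool.Agent.Q170.GF.Stmts

set_option autoImplicit false

namespace Pool.Agent.Q170.GF.TGrp

open Pool.Agent.Q170.GF
open MeasureTheory Set Filter Topology

theorem jc {X : Type} [NormedAddCommGroup X] [NormedSpace ℝ X] {U : ℝ → X →L[ℝ] X}
    (hU : IsGrp U) (hb : ∀ t, ‖U t‖ ≤ Real.exp (-t)) {φ : ℝ → ℝ} {g : ℝ → X}
    (hφ : Continuous φ) (hg : Continuous g) : Continuous fun s => U (φ s) (g s) := by
  rw [continuous_iff_continuousAt]
  intro s0
  have h1 : Tendsto (fun s => U (φ s) (g s - g s0)) (𝓝 s0) (𝓝 0) := by
    refine squeeze_zero_norm (fun s => (U (φ s)).le_of_opNorm_le (hb _) _) ?_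
    have : Continuous fun s => Real.exp (-φ s) * ‖g s - g s0‖ := by fun_prop
    have h := this.tendsto s0
    simpa using h
  have h2 : Tendsto (fun s => U (φ s) (g s0)) (𝓝 s0) (𝓝 (U (φ s0) (g s0))) :=
    ((hU.cont (g s0)).comp hφ).tendsto s0
  have h3 := h1.add h2
  rw [zero_add] at h3
  refine h3.congr fun s => ?_
  rw [map_sub, sub_add_cancel]

theorem main : Pool.Agent.Q170.GF.TaskGrp := by
  intro hD X _ _ _ U V B hU hb hV hDuh
  refine ⟨?_, ?_, hV⟩
  · ext f
    have h := hDuh f 0
    rw [hU.zero, intervalIntegral.integral_same, add_zero] at h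
    exact h
  · intro s t
    ext f
    have hw : ∀ s, V (s + t) f - V s (V t f) = 0 := by
      apply hD X U B (fun s => V (s + t) f - V s (V t f)) hU hb
      · exact ((hV f).comp (continuous_id.add continuous_const)).sub (hV _)
      · intro s
        have c1 : Continuous fun r => U (s + t - r) (B (V r f)) :=
          jc hU hb (by fun_prop) (B.continuous.comp (hV f))
        have c2 : Continuous fun r => U (t - r) (B (V r f)) :=
          jc hU hb (by fun_prop) (B.continuous.comp (hV f))
        have c3 : Continuous fun r => U (s - r) (B (V (r + t) f)) :=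
          jc hU hb (by fun_prop) (B.continuous.comp ((hV f).comp (continuous_id.add continuous_const)))
        have c4 : Continuous fun r => U (s - r) (B (V r (V t f))) :=
          jc hU hb (by fun_prop) (B.continuous.comp (hV _))
        have e1 : ∫ r in (0:ℝ)..(s+t), U (s + t - r) (B (V r f)) =
            (∫ r in (0:ℝ)..t, U (s+t-r) (B (V r f))) + ∫ r in t..(s+t), U (s+t-r) (B (V r f)) :=
          (intervalIntegral.integral_add_adjacent_intervals (c1.intervalIntegrable _ _)
            (c1.intervalIntegrable _ _)).symm
        have e2 : ∫ r in (0:ℝ)..t, U (s+t-r) (B (V r f)) =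
            U s (∫ r in (0:ℝ)..t, U (t-r) (B (V r f))) := by
          rw [← ContinuousLinearMap.intervalIntegral_comp_comm _ (c2.intervalIntegrable _ _)]
          refine intervalIntegral.integral_congr fun r _ => ?_
          show U (s + t - r) (B (V r f)) = U s (U (t - r) (B (V r f)))
          rw [show s + t - r = s + (t - r) by ring, hU.add]
          rfl
        have e3 : ∫ r in t..(s+t), U (s+t-r) (B (V r f)) =
            ∫ r in (0:ℝ)..s, U (s-r) (B (V (r+t) f)) := by
          have h := intervalIntegral.integral_comp_add_right (a := 0) (b := s)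
            (fun r => U (s+t-r) (B (V r f))) t
          rw [zero_add] at h
          rw [← h]
          refine intervalIntegral.integral_congr fun r _ => ?_
          show U (s + t - (r + t)) (B (V (r + t) f)) = _
          rw [show s + t - (r + t) = s - r by ring]
        have e5 : U (s+t) f + U s (∫ r in (0:ℝ)..t, U (t-r) (B (V r f))) = U s (V t f) := by
          rw [hDuh f t, map_add, hU.add]
          rfl
        have e6 : ∫ r in (0:ℝ)..s, U (s-r) (B (V (r+t) f - V r (V t f))) =
            (∫ r in (0:ℝ)..s, U (s-r) (B (V (r+t) f))) - ∫ r in (0:ℝ)..s, U (s-r) (B (V r (V t f))) := by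
          rw [← intervalIntegral.integral_sub (c3.intervalIntegrable _ _) (c4.intervalIntegrable _ _)]
          refine intervalIntegral.integral_congr fun r _ => ?_
          show U (s-r) (B (V (r+t) f - V r (V t f))) = _
          rw [map_sub, map_sub]
        show V (s + t) f - V s (V t f) = ∫ r in (0:ℝ)..s, U (s-r) (B (V (r+t) f - V r (V t f)))
        rw [e6, hDuh f (s+t), hDuh (V t f) s, e1, e2, e3, ← e5]
        abel
    have h := hw s
    rw [sub_eq_zero] at h
    exact h

end Pool.Agent.Q170.GF.TGrp
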