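import Pool.Agent.Q170.GF.Stmts

set_option autoImplicit false

namespace Pool.Agent.Q170.GF.TH

open MeasureTheory Set Filter Topology Pool.Agent.Q170.GF

theorem main : Pool.Agent.Q170.GF.TaskH := by
  have hmeas : Measurable (fun x : ℝ => if x < 1 then x⁻¹ else 0) :=
    Measurable.ite measurableSet_Iio measurable_inv measurable_const
  have hpos : ∀ᵐ x ∂mu, 0 < x := by
    have h1 : mu ≪ volume.restrict (Ioi (0 : ℝ)) := withDensity_absolutelyContinuous _ _
    exact h1.ae_le (ae_restrict_mem measurableSet_Ioi)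
  refine ⟨?_, ?_⟩
  · have hmem : MemLp (fun x : ℝ => if x < 1 then x⁻¹ else 0) 1 mu := by
      rw [memLp_one_iff_integrable]
      refine ⟨hmeas.aestronglyMeasurable, ?_⟩
      unfold HasFiniteIntegral mu
      rw [lintegral_withDensity_eq_lintegral_mul _ (by fun_prop) (hmeas.enorm)]
      have h2 : ∫⁻ x in Ioi (0 : ℝ), ((fun x => ENNReal.ofReal x) * fun x : ℝ =>
          ‖if x < 1 then x⁻¹ else 0‖ₑ) x ≤ ∫⁻ x in Ioi (0 : ℝ), (Iio (1 : ℝ)).indicator 1 x := by
        refine setLIntegral_mono' measurableSet_Ioi fun x hx => ?_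
        have hx0 : (0 : ℝ) < x := hx
        simp only [Pi.mul_apply]
        by_cases h : x < 1
        · rw [if_pos h, indicator_of_mem (by exact h)]
          rw [Real.enorm_of_nonneg (by positivity), ← ENNReal.ofReal_mul hx0.le,
            mul_inv_cancel₀ hx0.ne']
          simp
        · rw [if_neg h]
          simp
      refine lt_of_le_of_lt h2 ?_
      rw [lintegral_indicator_one measurableSet_Iio, Measure.restrict_apply measurableSet_Iio]
      have h3 : Iio (1 : ℝ) ∩ Ioi 0 = Ioo 0 1 := by
        ext x; simp [and_comm]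
      rw [h3, Real.volume_Ioo]
      exact ENNReal.ofReal_lt_top
    exact ⟨hmem.toLp _, hmem.coeFn_toLp⟩
  · intro h hh
    rw [← Lp.coeFn_nonneg]
    filter_upwards [hh, hpos] with x hx hx0
    rw [hx]
    simp only [Pi.zero_apply]
    split_ifs
    · positivity
    · exact le_rfl

end Pool.Agent.Q170.GF.TH
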