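import Pool.Agent.Q170.GF.Stmts

set_option autoImplicit false

open MeasureTheory Set Filter Topology

namespace Pool.Agent.Q170.GF.TMass

theorem main : Pool.Agent.Q170.GF.TaskMass := by
  refine ⟨?_, ?_, ?_⟩
  · have h : Function.uncurry bb =
        fun z : ℝ × ℝ => if z ∈ {z : ℝ × ℝ | z.1 < 1} ∩ {z : ℝ × ℝ | 1 < z.2} then z.2 / z.1 else 0 := by
      funext z
      rfl
    rw [h]
    refine Measurable.ite ?_ (measurable_snd.div measurable_fst) measurable_const
    exact (measurableSet_lt measurable_fst measurable_const).inter
      (measurableSet_lt measurable_const measurable_snd)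
  · intro x y hx hxy
    unfold bb
    split_ifs
    · exact div_nonneg (by linarith) hx.le
    · exact le_rfl
  · intro y hy
    calc ∫⁻ x in Ioo 0 y, ENNReal.ofReal (x * bb x y)
        ≤ ∫⁻ x in Ioo 0 y, (Ioo (0 : ℝ) 1).indicator (fun _ => ENNReal.ofReal y) x := by
          apply setLIntegral_mono' measurableSet_Ioo
          intro x hx
          unfold bb
          split_ifs with h
          · rw [indicator_of_mem (show x ∈ Ioo (0 : ℝ) 1 from ⟨hx.1, h.1⟩)]
            apply ENNReal.ofReal_le_ofReal
            rw [mul_div_cancel₀ _ hx.1.ne']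
          · rw [mul_zero, ENNReal.ofReal_zero]
            exact zero_le
      _ ≤ ∫⁻ x, (Ioo (0 : ℝ) 1).indicator (fun _ => ENNReal.ofReal y) x :=
          setLIntegral_le_lintegral _ _
      _ = ENNReal.ofReal y := by
          rw [lintegral_indicator_const measurableSet_Ioo, Real.volume_Ioo, sub_zero,
            ENNReal.ofReal_one, mul_one]

end Pool.Agent.Q170.GF.TMass
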