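import Pool.Agent.Q170.GF.Stmts

set_option autoImplicit false

namespace Pool.Agent.Q170.GF.TODE

open Pool.Agent.Q170.GF MeasureTheory Set Filter Topology

theorem cont_comp {X : Type} [NormedAddCommGroup X] [NormedSpace ℝ X] (A : ℝ → X →L[ℝ] X) (C : ℝ)
    (hA : ∀ f, Continuous fun s => A s f) (hAC : ∀ s, ‖A s‖ ≤ C) (w : ℝ → X) (hw : Continuous w) :
    Continuous fun s => A s (w s) := by
  rw [continuous_iff_continuousAt]
  intro s0
  have h1 : Tendsto (fun s => A s (w s - w s0)) (𝓝 s0) (𝓝 0) := by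
    refine squeeze_zero_norm (a := fun s => C * ‖w s - w s0‖) (fun s => ?_) ?_
    · exact ((A s).le_opNorm _).trans (mul_le_mul_of_nonneg_right (hAC s) (norm_nonneg _))
    · have : Tendsto (fun s => C * ‖w s - w s0‖) (𝓝 s0) (𝓝 (C * ‖w s0 - w s0‖)) :=
        ((hw.sub continuous_const).norm.continuousAt.tendsto).const_mul C
      simpa using this
  have h2 : Tendsto (fun s => A s (w s0)) (𝓝 s0) (𝓝 (A s0 (w s0))) := (hA (w s0)).continuousAt
  have := h1.add h2
  simp only [map_sub, sub_add_cancel, zero_add] at this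
  exact this

theorem main : Pool.Agent.Q170.GF.TaskODE := by
  intro hStep X _ _ _ A C hA hAC
  have hC : 0 ≤ C := (norm_nonneg _).trans (hAC 0)
  let P : ℕ → (ℝ → X →L[ℝ] X) → Prop := fun n W =>
    (∀ f, Continuous fun t => W t f) ∧ ∀ s, ‖W s‖ ≤ (C * |s|) ^ n / n.factorial
  have step : ∀ (n : ℕ) (W : ℝ → X →L[ℝ] X), P n W →
      ∃ G, P (n + 1) G ∧ ∀ t f, G t f = ∫ s in (0 : ℝ)..t, A s (W s f) := by
    rintro n W ⟨hW1, hW2⟩
    obtain ⟨G, g1, g2, g3⟩ := hStep X (fun s => (A s).comp (W s)) C n hC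
      (fun f => cont_comp A C hA hAC _ (hW1 f)) (fun s => by
        calc ‖(A s).comp (W s)‖ ≤ ‖A s‖ * ‖W s‖ := ContinuousLinearMap.opNorm_comp_le _ _
          _ ≤ C * ((C * |s|) ^ n / n.factorial) :=
              mul_le_mul (hAC s) (hW2 s) (norm_nonneg _) hC
          _ = C * (C * |s|) ^ n / n.factorial := by ring)
    exact ⟨G, ⟨g1, g3⟩, g2⟩
  have h0 : P 0 (fun _ => ContinuousLinearMap.id ℝ X) :=
    ⟨fun f => continuous_const, fun s => by simpa using ContinuousLinearMap.norm_id_le⟩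
  let Wn : (n : ℕ) → {W // P n W} := fun n =>
    Nat.rec ⟨_, h0⟩ (fun n W => ⟨(step n W.1 W.2).choose, (step n W.1 W.2).choose_spec.1⟩) n
  have hWn0 : ∀ t f, (Wn 0).1 t f = f := fun _ _ => rfl
  have hWn : ∀ n t f, (Wn (n + 1)).1 t f = ∫ s in (0 : ℝ)..t, A s ((Wn n).1 s f) :=
    fun n t f => (step n (Wn n).1 (Wn n).2).choose_spec.2 t f
  have hcont : ∀ n f, Continuous fun t => (Wn n).1 t f := fun n => (Wn n).2.1
  have hnorm : ∀ n s, ‖(Wn n).1 s‖ ≤ (C * |s|) ^ n / n.factorial := fun n => (Wn n).2.2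
  have hsum : ∀ t, Summable fun n => (Wn n).1 t := fun t =>
    Summable.of_norm_bounded (Real.summable_pow_div_factorial (C * |t|)) (fun n => hnorm n t)
  have hHS : ∀ t f, HasSum (fun n => (Wn n).1 t f) ((∑' n, (Wn n).1 t) f) := by
    intro t f
    exact (ContinuousLinearMap.apply ℝ X f).hasSum (hsum t).hasSum
  have hbd : ∀ n s f, ‖(Wn n).1 s f‖ ≤ (C * |s|) ^ n / n.factorial * ‖f‖ := fun n s f =>
    ((Wn n).1 s).le_of_opNorm_le (hnorm n s) f
  have hWc : ∀ f, Continuous fun t => (∑' n, (Wn n).1 t) f := by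
    intro f
    rw [continuous_iff_continuousAt]
    intro t0
    have hev : Metric.ball t0 1 ∈ 𝓝 t0 := Metric.ball_mem_nhds _ one_pos
    have h1 : ContinuousOn (fun t => ∑' n, (Wn n).1 t f) (Metric.ball t0 1) := by
      refine continuousOn_tsum (u := fun n => (C * (|t0| + 1)) ^ n / n.factorial * ‖f‖)
        (fun n => (hcont n f).continuousOn)
        ((Real.summable_pow_div_factorial (C * (|t0| + 1))).mul_right _) ?_
      intro n x hx
      refine (hbd n x f).trans ?_
      have hx' : |x| ≤ |t0| + 1 := by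
        have h2 : |x - t0| < 1 := by rwa [Metric.mem_ball, Real.dist_eq] at hx
        have h3 := abs_sub_abs_le_abs_sub x t0
        linarith
      gcongr
    have h2 : (fun t => (∑' n, (Wn n).1 t) f) = fun t => ∑' n, (Wn n).1 t f := by
      funext t
      exact (hHS t f).tsum_eq.symm
    rw [h2]
    exact h1.continuousAt hev
  refine ⟨fun t => ∑' n, (Wn n).1 t, hWc, ?_⟩
  intro f t
  -- the sum of the integrals
  let g : ℕ → C(ℝ, X) := fun n => ⟨fun s => A s ((Wn n).1 s f), cont_comp A C hA hAC _ (hcont n f)⟩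
  have hgs : Summable fun n => ‖(g n).restrict (⟨uIcc 0 t, isCompact_uIcc⟩ : TopologicalSpace.Compacts ℝ)‖ := by
    refine Summable.of_nonneg_of_le (fun _ => norm_nonneg _) (fun n => ?_)
      (((Real.summable_pow_div_factorial (C * |t|)).mul_right ‖f‖).mul_left C)
    rw [ContinuousMap.norm_le _ (by positivity)]
    rintro ⟨s, hs⟩
    have hs' : |s| ≤ |t| := by
      rcases le_total 0 t with ht | ht
      · have hs2 : s ∈ uIcc 0 t := hs
        rw [uIcc_of_le ht] at hs2
        rw [abs_of_nonneg hs2.1, abs_of_nonneg ht]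
        exact hs2.2
      · have hs2 : s ∈ uIcc 0 t := hs
        rw [uIcc_of_ge ht] at hs2
        rw [abs_of_nonpos hs2.2, abs_of_nonpos ht]
        linarith [hs2.1]
    have h1 : ‖A s ((Wn n).1 s f)‖ ≤ C * ‖(Wn n).1 s f‖ := (A s).le_of_opNorm_le (hAC s) _
    refine h1.trans (mul_le_mul_of_nonneg_left ((hbd n s f).trans ?_) hC)
    gcongr
  have hI := intervalIntegral.hasSum_intervalIntegral_of_summable_norm (a := 0) (b := t) hgs
  have hA' : ∀ s, ∑' n, g n s = A s ((∑' n, (Wn n).1 s) f) := by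
    intro s
    exact ((A s).hasSum (hHS s f)).tsum_eq
  simp only [hA'] at hI
  have hI' : HasSum (fun n => (Wn (n + 1)).1 t f)
      (∫ s in (0 : ℝ)..t, A s ((∑' n, (Wn n).1 s) f)) := by
    have h5 : (fun n => (Wn (n + 1)).1 t f) = fun n => ∫ s in (0 : ℝ)..t, g n s := by
      funext n
      exact hWn n t f
    rw [h5]
    exact hI
  have h2 := (hHS t f)
  rw [← hasSum_nat_add_iff' 1] at h2
  simp only [Finset.range_one, Finset.sum_singleton, hWn0] at h2
  have h3 := h2.unique hI'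
  rw [← h3]
  abel

end Pool.Agent.Q170.GF.TODE
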