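import Pool.Agent.Q170.GF.Stmts

namespace Pool.Agent.Q170.GF.TPert
open Pool.Agent.Q170.GF
open MeasureTheory Set Filter Topology

theorem cont_aux {X : Type} [NormedAddCommGroup X] [NormedSpace ℝ X] (U : ℝ → X →L[ℝ] X)
    (hU : IsGrp U) (hn : ∀ t, ‖U t‖ ≤ Real.exp (-t)) (a : ℝ → ℝ) (ha : Continuous a) (g : ℝ → X)
    (hg : Continuous g) : Continuous fun s => U (a s) (g s) := by
  rw [continuous_iff_continuousAt]
  intro s0
  have h1 : Tendsto (fun s => U (a s) (g s) - U (a s) (g s0)) (𝓝 s0) (𝓝 0) := by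
    refine squeeze_zero_norm (a := fun s => Real.exp (-(a s)) * ‖g s - g s0‖) ?_ ?_
    · intro s
      rw [← map_sub]
      exact ((U (a s)).le_opNorm _).trans (mul_le_mul_of_nonneg_right (hn _) (norm_nonneg _))
    · have h : Continuous fun s => Real.exp (-(a s)) * ‖g s - g s0‖ := by fun_prop
      have h' := h.tendsto s0
      simpa using h'
  have h2 : Tendsto (fun s => U (a s) (g s0)) (𝓝 s0) (𝓝 (U (a s0) (g s0))) :=
    ((hU.cont (g s0)).comp ha).tendsto s0
  have h3 := h1.add h2
  have h4 : (fun s => U (a s) (g s) - U (a s) (g s0) + U (a s) (g s0)) =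
      fun s => U (a s) (g s) := by
    funext s
    rw [sub_add_cancel]
  rw [h4, zero_add] at h3
  exact h3

theorem main : Pool.Agent.Q170.GF.TaskPert := by
  intro hODE X _ _ _ U B hU hn
  have hAc : ∀ f : X, Continuous fun s => ((U (-s)).comp (B.comp (U s))) f := by
    intro f
    exact cont_aux U hU hn (fun s => -s) continuous_neg (fun s => B (U s f))
      (B.continuous.comp (hU.cont f))
  have hAn : ∀ s, ‖(U (-s)).comp (B.comp (U s))‖ ≤ ‖B‖ := by
    intro s
    have h1 : ‖(U (-s)).comp (B.comp (U s))‖ ≤ ‖U (-s)‖ * (‖B‖ * ‖U s‖) :=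
      (ContinuousLinearMap.opNorm_comp_le _ _).trans
        (mul_le_mul_of_nonneg_left (ContinuousLinearMap.opNorm_comp_le _ _) (norm_nonneg _))
    have h2 : ‖U (-s)‖ * (‖B‖ * ‖U s‖) ≤ Real.exp (- -s) * (‖B‖ * Real.exp (-s)) :=
      mul_le_mul (hn _) (mul_le_mul_of_nonneg_left (hn _) (norm_nonneg _))
        (by positivity) (Real.exp_pos _).le
    have h3 : Real.exp (- -s) * (‖B‖ * Real.exp (-s)) = ‖B‖ := by
      have : Real.exp (- -s) * Real.exp (-s) = 1 := by
        rw [← Real.exp_add]; simp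
      calc Real.exp (- -s) * (‖B‖ * Real.exp (-s))
          = ‖B‖ * (Real.exp (- -s) * Real.exp (-s)) := by ring
        _ = ‖B‖ := by rw [this, mul_one]
    linarith
  obtain ⟨W, hWc, hW⟩ := hODE X (fun s => (U (-s)).comp (B.comp (U s))) ‖B‖ hAc hAn
  refine ⟨fun t => (U t).comp (W t), ?_, ?_⟩
  · intro f
    exact cont_aux U hU hn (fun s => s) continuous_id (fun s => W s f) (hWc f)
  · intro f t
    have hcont : Continuous fun s => ((U (-s)).comp (B.comp (U s))) (W s f) :=
      cont_aux U hU hn (fun s => -s) continuous_neg (fun s => B (U s (W s f)))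
        (B.continuous.comp (cont_aux U hU hn (fun s => s) continuous_id (fun s => W s f) (hWc f)))
    have h1 : ((U t).comp (W t)) f = U t (W t f) := rfl
    rw [h1, hW f t, map_add, ← ContinuousLinearMap.intervalIntegral_comp_comm (U t)
      (hcont.intervalIntegrable 0 t)]
    congr 1
    refine intervalIntegral.integral_congr fun s _ => ?_
    have h2 : U (t - s) = U t * U (-s) := by
      rw [← hU.add, sub_eq_add_neg]
    simp only [h2]
    rfl

end Pool.Agent.Q170.GF.TPert
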