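import Pool.Agent.Q170.GF.Stmts

set_option autoImplicit false

namespace Pool.Agent.Q170.GF.TPhi

open Pool.Agent.Q170.GF
open MeasureTheory Set Filter Topology

lemma key (f : ℝ → ℝ) : ∫ y in Ioi (1 : ℝ), f y ∂mu = ∫ y in Ioi (1 : ℝ), y * f y := by
  unfold mu
  have h1 : Ioi (1 : ℝ) ∩ Ioi 0 = Ioi 1 := inter_eq_left.2 (Ioi_subset_Ioi zero_le_one)
  rw [restrict_withDensity measurableSet_Ioi, Measure.restrict_restrict measurableSet_Ioi, h1,
    integral_withDensity_eq_integral_toReal_smul (by fun_prop)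
      (ae_of_all _ fun x => ENNReal.ofReal_lt_top)]
  refine setIntegral_congr_fun measurableSet_Ioi fun y hy => ?_
  have hy0 : (0 : ℝ) ≤ y := zero_le_one.trans (le_of_lt hy)
  simp only [ENNReal.toReal_ofReal hy0, smul_eq_mul]

lemma int (f : X1) : IntegrableOn (fun y => f y) (Ioi 1) mu :=
  (L1.integrable_coeFn f).integrableOn

noncomputable def lin : X1 →ₗ[ℝ] ℝ where
  toFun f := 2 * ∫ y in Ioi (1 : ℝ), f y ∂mu
  map_add' f g := by
    have h : ∫ y in Ioi (1 : ℝ), (f + g) y ∂mu = ∫ y in Ioi (1 : ℝ), (f y + g y) ∂mu :=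
      integral_congr_ae (ae_restrict_of_ae (Lp.coeFn_add f g))
    rw [h, integral_add (int f) (int g)]
    ring
  map_smul' c f := by
    have h : ∫ y in Ioi (1 : ℝ), (c • f) y ∂mu = ∫ y in Ioi (1 : ℝ), c * f y ∂mu :=
      integral_congr_ae (ae_restrict_of_ae (Lp.coeFn_smul c f))
    rw [h, integral_const_mul]
    simp only [RingHom.id_apply, smul_eq_mul]
    ring

theorem main : Pool.Agent.Q170.GF.TaskPhi := by
  refine ⟨⟨lin.mkContinuous 2 ?_, ?_⟩, ?_⟩
  · intro f
    show ‖2 * ∫ y in Ioi (1 : ℝ), f y ∂mu‖ ≤ 2 * ‖f‖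
    rw [norm_mul, Real.norm_two]
    refine mul_le_mul_of_nonneg_left ?_ zero_le_two
    refine (norm_integral_le_integral_norm _).trans ?_
    rw [L1.norm_eq_integral_norm]
    exact setIntegral_le_integral (L1.integrable_coeFn f).norm (ae_of_all _ fun x => norm_nonneg _)
  · intro f
    show 2 * ∫ y in Ioi (1 : ℝ), f y ∂mu = _
    rw [key]
  · intro φ hφ f hf
    rw [hφ f, ← key]
    refine mul_nonneg zero_le_two ?_
    refine integral_nonneg_of_ae (ae_restrict_of_ae ?_)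
    exact (Lp.coeFn_nonneg f).2 hf

end Pool.Agent.Q170.GF.TPhi
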