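import Pool.Agent.Q170.GF.Stmts

set_option autoImplicit false

open MeasureTheory Set Filter Topology

namespace Pool.Agent.Q170.GF.TPhiFix

open Pool.Agent.Q170.GF

lemma ae_of_mu (q : ℝ → Prop) (h : ∀ᵐ x ∂mu, q x) : ∀ᵐ x ∂(volume.restrict (Ioi (1 : ℝ))), q x := by
  unfold mu at h
  rw [ae_withDensity_iff (by fun_prop)] at h
  have h3 : ∀ᵐ x ∂(volume.restrict (Ioi (1 : ℝ))), ENNReal.ofReal x ≠ 0 → q x :=
    ae_mono (Measure.restrict_mono (Ioi_subset_Ioi zero_le_one) le_rfl) h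
  filter_upwards [h3, ae_restrict_mem measurableSet_Ioi] with x hx hx1
  refine hx ?_
  rw [Ne, ENNReal.ofReal_eq_zero, not_le]
  exact lt_trans one_pos hx1

theorem main : Pool.Agent.Q170.GF.TaskPhiFix := by
  intro φ u hφ hu
  rw [hφ u]
  have h4 : ∫ y in Ioi (1 : ℝ), y * (u : ℝ → ℝ) y = ∫ y in Ioi (1 : ℝ), y ^ (-2 : ℝ) := by
    refine integral_congr_ae ?_
    filter_upwards [ae_of_mu _ hu, ae_restrict_mem measurableSet_Ioi] with x hx hx1
    have hx1' : (1 : ℝ) < x := hx1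
    rw [hx, if_neg (not_lt.2 hx1'.le), Real.rpow_neg (by linarith)]
    have h5 : x ^ (2 : ℝ) = x ^ 2 := by exact_mod_cast Real.rpow_natCast x 2
    rw [h5]
    have : x ≠ 0 := by linarith
    field_simp
  rw [h4, integral_Ioi_rpow_of_lt (by norm_num) one_pos]
  norm_num

end Pool.Agent.Q170.GF.TPhiFix
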