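import Pool.Agent.Q170.GF.Stmts

set_option autoImplicit false

namespace Pool.Agent.Q170.GF.TRad
open Pool.Agent.Q170.GF MeasureTheory Set Filter Topology

theorem main : Pool.Agent.Q170.GF.TaskRad := by
  intro X _ _ T u hu hT
  unfold rad
  refine le_ciInf fun n => ?_
  have h1 : ∀ m : ℕ, (T ^ m) u = u := by
    intro m
    induction m with
    | zero => simp
    | succ m ih => rw [pow_succ, ContinuousLinearMap.mul_apply, hT, ih]
  have h2 : 1 ≤ ‖T ^ (n + 1)‖ := by
    have h3 := (T ^ (n + 1)).le_opNorm u
    rw [h1] at h3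
    have h4 : 0 < ‖u‖ := norm_pos_iff.2 hu
    by_contra hcon
    push Not at hcon
    have := mul_lt_mul_of_pos_right hcon h4
    rw [one_mul] at this
    linarith
  exact Real.one_le_rpow h2 (by positivity)

end Pool.Agent.Q170.GF.TRad
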