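import Pool.Agent.Q170.GF.Stmts

namespace Pool.Agent.Q170.GF.TRankOne
open Pool.Agent.Q170.GF MeasureTheory Set

theorem main : Pool.Agent.Q170.GF.TaskRankOne := by
  intro X _ _ _ h ψ C t K ht hh hψ hC hK
  rcases ht.eq_or_lt with h0 | hpos
  · -- `t = 0`
    have hK0 : K = 0 := by
      ext f
      rw [hK f, ← h0, intervalIntegral.integral_same]
      rfl
    rw [hK0]
    exact isCompactOperator_zero
  set S : Set X := (fun p : ℝ × ℝ => p.1 • h p.2) '' (Icc (-C) C ×ˢ Icc 0 t) with hS
  have hScomp : IsCompact S := by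
    apply (isCompact_Icc.prod isCompact_Icc).image
    exact continuous_fst.smul (hh.comp continuous_snd)
  set Q : Set X := closure (convexHull ℝ S) with hQ
  have hQcomp : IsCompact Q :=
    isCompact_iff_totallyBounded_isComplete.2
      ⟨hScomp.totallyBounded.convexHull.closure, isClosed_closure.isComplete⟩
  have hQconv : Convex ℝ Q := (convex_convexHull ℝ S).closure
  rw [show (⇑K : X → X) = ⇑(K : X →ₗ[ℝ] X) from rfl,
    isCompactOperator_iff_image_closedBall_subset_compact (K : X →ₗ[ℝ] X) one_pos]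
  refine ⟨(fun x => t • x) '' Q, hQcomp.image (continuous_const_smul t), ?_⟩
  rintro _ ⟨f, hf, rfl⟩
  have hf1 : ‖f‖ ≤ 1 := by simpa using hf
  have hC0 : 0 ≤ C := (norm_nonneg _).trans (hC 0 le_rfl ht)
  have hcont : Continuous fun s => ψ s f • h s := (hψ f).smul hh
  have hvol : volume (Ioc (0 : ℝ) t) ≠ 0 := by
    rw [Real.volume_Ioc]
    simpa using hpos
  have hvol' : volume (Ioc (0 : ℝ) t) ≠ ⊤ := by
    rw [Real.volume_Ioc]
    exact ENNReal.ofReal_ne_top
  have hmem : (⨍ s in Ioc (0 : ℝ) t, ψ s f • h s) ∈ Q := by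
    apply hQconv.set_average_mem isClosed_closure hvol hvol'
    · rw [ae_restrict_iff' measurableSet_Ioc]
      refine Filter.Eventually.of_forall fun s hs => ?_
      apply subset_closure
      apply subset_convexHull ℝ S
      refine ⟨(ψ s f, s), ⟨?_, ?_⟩, rfl⟩
      · have h1 : ‖ψ s f‖ ≤ C := by
          calc ‖ψ s f‖ ≤ ‖ψ s‖ * ‖f‖ := (ψ s).le_opNorm f
            _ ≤ C * 1 := mul_le_mul (hC s hs.1.le hs.2) hf1 (norm_nonneg _) hC0
            _ = C := mul_one C
        rw [Real.norm_eq_abs] at h1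
        exact abs_le.1 h1
      · exact ⟨hs.1.le, hs.2⟩
    · exact hcont.integrableOn_Ioc
  refine ⟨_, hmem, ?_⟩
  simp only [ContinuousLinearMap.coe_coe]
  rw [hK f, intervalIntegral.integral_of_le ht, setAverage_eq, smul_smul]
  have hr : (volume : Measure ℝ).real (Ioc (0 : ℝ) t) = t := by
    simp [Measure.real, Real.volume_Ioc, ht]
  rw [hr, mul_inv_cancel₀ hpos.ne', one_smul]

end Pool.Agent.Q170.GF.TRankOne
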