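import Mathlib
import Pool.Agent.Q170.GF.Stmts

namespace Pool.Agent.Q170.GF.TRate

open Pool.Agent.Q170.GF
open MeasureTheory Set Filter Topology

theorem top_of_not {s : Set ℝ} (hs : MeasurableSet s) (h0 : ∀ x ∈ s, 0 ≤ 1 / x)
    (h : ¬ IntegrableOn (fun x : ℝ => x⁻¹) s) : ∫⁻ x in s, ENNReal.ofReal (1 / x) = ⊤ := by
  by_contra hne
  apply h
  have hlt : ∫⁻ x in s, ENNReal.ofReal (1 / x) < ⊤ := lt_top_iff_ne_top.2 hne
  refine ⟨(measurable_inv.aestronglyMeasurable), ?_⟩
  rw [hasFiniteIntegral_iff_ofReal]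
  · simpa [one_div] using hlt
  · filter_upwards [ae_restrict_mem hs] with x hx
    have := h0 x hx
    simpa [one_div] using this

theorem int_inv (y t : ℝ) (hy : 0 < y) :
    ∫ τ in (y * Real.exp (-t))..y, 1 / τ = t := by
  have h1 : 0 < y * Real.exp (-t) := mul_pos hy (Real.exp_pos _)
  rw [integral_one_div_of_pos h1 hy]
  have e : y / (y * Real.exp (-t)) = Real.exp t := by
    rw [Real.exp_neg]
    field_simp
  rw [e, Real.log_exp]

theorem main : Pool.Agent.Q170.GF.TaskRate := by
  refine ⟨?_, ?_, ?_, ?_, ?_⟩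
  · refine ContinuousOn.locallyIntegrableOn ?_ measurableSet_Ioi
    refine ContinuousOn.div continuousOn_const continuousOn_id ?_
    intro x hx
    exact ne_of_gt hx
  · refine top_of_not measurableSet_Ioc (fun x hx => one_div_nonneg.2 hx.1.le) ?_
    intro h
    have h2 : IntervalIntegrable (fun x : ℝ => x⁻¹) volume 0 1 :=
      (intervalIntegrable_iff_integrableOn_Ioc_of_le zero_le_one).2 h
    rw [intervalIntegrable_inv_iff] at h2
    rcases h2 with h2 | h2
    · norm_num at h2
    · exact h2 (by simp)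
  · refine top_of_not measurableSet_Ioi (fun x hx => one_div_nonneg.2 ?_) ?_
    · have : (1 : ℝ) < x := hx
      linarith
    · exact not_integrableOn_Ioi_inv
  · intro y t hy ht
    refine ⟨mul_pos hy (Real.exp_pos _), ?_, int_inv y t hy⟩
    have h1 : Real.exp (-t) ≤ 1 := Real.exp_le_one_iff.2 (by linarith)
    nlinarith
  · intro y t hy ht
    have e1 : ∫ p in (y * Real.exp (-t))..y, 2 / p = 2 * t := by
      have e2 : (fun p : ℝ => 2 / p) = fun p : ℝ => 2 * (1 / p) := by
        funext p
        ring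
      rw [e2, intervalIntegral.integral_const_mul, int_inv y t hy]
    have e3 : deriv (fun z : ℝ => z * Real.exp (-t)) y = Real.exp (-t) := by
      have := ((hasDerivAt_id y).mul_const (Real.exp (-t))).deriv
      simpa using this
    rw [e1, e3, ← Real.exp_add]
    congr 1
    ring

end Pool.Agent.Q170.GF.TRate
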