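import Pool.Agent.Q170.GF.Stmts

set_option autoImplicit false

namespace Pool.Agent.Q170.GF.TStep

open Pool.Agent.Q170.GF MeasureTheory Set Filter Topology

lemma key (n : ℕ) (t : ℝ) : |∫ s in (0 : ℝ)..t, |s| ^ n| = |t| ^ (n + 1) / (n + 1) := by
  rcases le_total 0 t with ht | ht
  · have e : ∫ s in (0 : ℝ)..t, |s| ^ n = ∫ s in (0 : ℝ)..t, s ^ n := by
      refine intervalIntegral.integral_congr fun s hs => ?_
      rw [uIcc_of_le ht] at hs
      show |s| ^ n = s ^ n
      rw [abs_of_nonneg hs.1]
    rw [e, integral_pow, zero_pow (Nat.succ_ne_zero n), sub_zero, abs_of_nonneg (by positivity),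
      abs_of_nonneg ht]
  · have e : ∫ s in (0 : ℝ)..t, |s| ^ n = ∫ s in (0 : ℝ)..t, (-s) ^ n := by
      refine intervalIntegral.integral_congr fun s hs => ?_
      rw [uIcc_of_ge ht] at hs
      show |s| ^ n = (-s) ^ n
      rw [abs_of_nonpos hs.2]
    have e2 : ∫ s in (0 : ℝ)..t, (-s) ^ n = ∫ s in (-t)..(-0 : ℝ), s ^ n :=
      intervalIntegral.integral_comp_neg (fun x : ℝ => x ^ n)
    have ht' : 0 ≤ -t := by linarith
    rw [e, e2, integral_pow, neg_zero, zero_pow (Nat.succ_ne_zero n), zero_sub, neg_div, abs_neg,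
      abs_of_nonneg (by positivity), abs_of_nonpos ht]

theorem main : Pool.Agent.Q170.GF.TaskStep := by
  intro X _ _ _ F C n hC hF hb
  have hi : ∀ (f : X) (a b : ℝ), IntervalIntegrable (fun s => F s f) volume a b :=
    fun f a b => (hF f).intervalIntegrable a b
  have hbound : ∀ (t : ℝ) (f : X), ‖∫ s in (0 : ℝ)..t, F s f‖ ≤
      (C * |t|) ^ (n + 1) / (n + 1).factorial * ‖f‖ := by
    intro t f
    have hg : IntervalIntegrable (fun s : ℝ => (C ^ (n + 1) / n.factorial * ‖f‖) * |s| ^ n)
        volume 0 t := by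
      apply Continuous.intervalIntegrable
      fun_prop
    have h1 := intervalIntegral.norm_integral_le_abs_of_norm_le (f := fun s => F s f)
      (g := fun s : ℝ => (C ^ (n + 1) / n.factorial * ‖f‖) * |s| ^ n) (a := 0) (b := t)
      (μ := volume) (Filter.Eventually.of_forall fun s => by
        refine ((F s).le_opNorm f).trans ?_
        refine (mul_le_mul_of_nonneg_right (hb s) (norm_nonneg f)).trans (le_of_eq ?_)
        rw [mul_pow, pow_succ]
        ring) hg
    refine h1.trans (le_of_eq ?_)
    rw [intervalIntegral.integral_const_mul, abs_mul, key, abs_of_nonneg (by positivity), mul_pow,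
      Nat.factorial_succ]
    push_cast
    field_simp
  let L : ℝ → X →ₗ[ℝ] X := fun t =>
    { toFun := fun f => ∫ s in (0 : ℝ)..t, F s f
      map_add' := fun f g => by
        simp only [map_add]
        exact intervalIntegral.integral_add (hi f 0 t) (hi g 0 t)
      map_smul' := fun c f => by
        simp only [map_smul, RingHom.id_apply]
        exact intervalIntegral.integral_smul c _ }
  refine ⟨fun t => (L t).mkContinuous ((C * |t|) ^ (n + 1) / (n + 1).factorial) (hbound t),
    fun f => ?_, fun t f => rfl, fun s => ?_⟩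
  · show Continuous fun t => ∫ s in (0 : ℝ)..t, F s f
    exact intervalIntegral.continuous_primitive (hi f) 0
  · exact LinearMap.mkContinuous_norm_le _ (by positivity) _

end Pool.Agent.Q170.GF.TStep
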