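import Pool.Agent.Q170.GF.Stmts

namespace Pool.Agent.Q170.GF.TU
open Pool.Agent.Q170.GF MeasureTheory Set Filter Topology

lemma mu_apply (s : Set ℝ) (hs : MeasurableSet s) :
    mu s = ∫⁻ x, (s ∩ Ioi 0).indicator (fun x => ENNReal.ofReal x) x := by
  unfold mu
  rw [withDensity_apply _ hs, Measure.restrict_restrict hs,
    lintegral_indicator (hs.inter measurableSet_Ioi)]

lemma map_mu (t : ℝ) : Measure.map (fun y : ℝ => y * Real.exp (-t)) mu =
    ENNReal.ofReal (Real.exp (2 * t)) • mu := by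
  have ha : (0 : ℝ) < Real.exp (-t) := Real.exp_pos _
  have hg : Measurable (fun y : ℝ => y * Real.exp (-t)) := by fun_prop
  ext s hs
  rw [Measure.map_apply hg hs, Measure.smul_apply, mu_apply _ (hg hs), mu_apply _ hs]
  have h1 : ∀ y : ℝ, ((fun y : ℝ => y * Real.exp (-t)) ⁻¹' s ∩ Ioi 0).indicator
      (fun x => ENNReal.ofReal x) y =
      (s ∩ Ioi 0).indicator (fun x => ENNReal.ofReal (Real.exp t * x)) (y * Real.exp (-t)) := by
    intro y
    by_cases h : y * Real.exp (-t) ∈ s ∩ Ioi 0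
    · have h' : y ∈ (fun y : ℝ => y * Real.exp (-t)) ⁻¹' s ∩ Ioi 0 :=
        ⟨h.1, by
          have := h.2
          simp only [mem_Ioi] at this ⊢
          exact (mul_pos_iff_of_pos_right ha).mp this⟩
      rw [indicator_of_mem h, indicator_of_mem h']
      congr 1
      rw [mul_comm y, ← mul_assoc, ← Real.exp_add]
      simp
    · have h' : y ∉ (fun y : ℝ => y * Real.exp (-t)) ⁻¹' s ∩ Ioi 0 := by
        intro h2
        exact h ⟨h2.1, mul_pos h2.2 ha⟩
      rw [indicator_of_notMem h, indicator_of_notMem h']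
  simp_rw [h1]
  have hF : Measurable ((s ∩ Ioi 0).indicator (fun x => ENNReal.ofReal (Real.exp t * x))) :=
    Measurable.indicator (by fun_prop) (hs.inter measurableSet_Ioi)
  rw [← lintegral_map (f := (s ∩ Ioi 0).indicator (fun x => ENNReal.ofReal (Real.exp t * x))) hF hg,
    Real.map_volume_mul_right ha.ne', lintegral_smul_measure]
  have h2 : ∀ x : ℝ, (s ∩ Ioi 0).indicator (fun x => ENNReal.ofReal (Real.exp t * x)) x =
      ENNReal.ofReal (Real.exp t) * (s ∩ Ioi 0).indicator (fun x => ENNReal.ofReal x) x := by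
    intro x
    by_cases h : x ∈ s ∩ Ioi 0
    · rw [indicator_of_mem h, indicator_of_mem h, ENNReal.ofReal_mul (Real.exp_pos t).le]
    · rw [indicator_of_notMem h, indicator_of_notMem h, mul_zero]
  simp_rw [h2]
  rw [lintegral_const_mul' _ _ ENNReal.ofReal_ne_top, smul_eq_mul, smul_eq_mul, ← mul_assoc,
    ← ENNReal.ofReal_mul (abs_nonneg _)]
  congr 2
  rw [abs_of_pos (by positivity), ← Real.exp_neg, neg_neg, ← Real.exp_add]
  congr 1
  ring

lemma memLp (t : ℝ) (f : X1) :
    MemLp (fun y => Real.exp (-3 * t) * f (y * Real.exp (-t))) 1 mu := by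
  have h1 : MemLp (f : ℝ → ℝ) 1 (Measure.map (fun y => y * Real.exp (-t)) mu) := by
    rw [map_mu]
    exact (Lp.memLp f).smul_measure ENNReal.ofReal_ne_top
  have hg : Measurable (fun y : ℝ => y * Real.exp (-t)) := by fun_prop
  have h2 := h1.comp_of_map hg.aemeasurable
  exact h2.const_mul _

lemma norm_eq (t : ℝ) (f : X1) : ‖(memLp t f).toLp _‖ = Real.exp (-t) * ‖f‖ := by
  have hg : Measurable (fun y : ℝ => y * Real.exp (-t)) := by fun_prop
  have hf : AEStronglyMeasurable (f : ℝ → ℝ) (Measure.map (fun y => y * Real.exp (-t)) mu) := by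
    rw [map_mu]
    exact (Lp.memLp f).1.smul_measure _
  rw [Lp.norm_toLp, Lp.norm_def]
  have h1 : eLpNorm (fun y => Real.exp (-3 * t) * f (y * Real.exp (-t))) 1 mu =
      ENNReal.ofReal (Real.exp (-t)) * eLpNorm f 1 mu := by
    have h2 : (fun y => Real.exp (-3 * t) * f (y * Real.exp (-t))) =
        Real.exp (-3 * t) • ((f : ℝ → ℝ) ∘ fun y => y * Real.exp (-t)) := rfl
    rw [h2, eLpNorm_const_smul, ← eLpNorm_map_measure hf hg.aemeasurable, map_mu,
      eLpNorm_one_smul_measure, ← mul_assoc]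
    congr 1
    rw [Real.enorm_eq_ofReal (Real.exp_pos _).le, ← ENNReal.ofReal_mul (Real.exp_pos _).le,
      ← Real.exp_add]
    congr 2
    ring
  rw [h1, ENNReal.toReal_mul, ENNReal.toReal_ofReal (Real.exp_pos _).le]

lemma ae_comp (t : ℝ) {F G : ℝ → ℝ} (h : F =ᵐ[mu] G) :
    (fun y => F (y * Real.exp (-t))) =ᵐ[mu] fun y => G (y * Real.exp (-t)) := by
  have hg : Measurable (fun y : ℝ => y * Real.exp (-t)) := by fun_prop
  have h' : F =ᵐ[Measure.map (fun y => y * Real.exp (-t)) mu] G := by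
    rw [map_mu]
    exact Measure.ae_smul_measure h _
  exact ae_of_ae_map hg.aemeasurable h'

noncomputable def L (t : ℝ) : X1 →ₗ[ℝ] X1 where
  toFun f := (memLp t f).toLp _
  map_add' f g := by
    rw [← MemLp.toLp_add]
    apply MemLp.toLp_congr
    filter_upwards [ae_comp t (Lp.coeFn_add f g)] with y hy
    simp only [hy, Pi.add_apply]
    ring
  map_smul' c f := by
    rw [RingHom.id_apply, ← MemLp.toLp_const_smul]
    apply MemLp.toLp_congr
    filter_upwards [ae_comp t (Lp.coeFn_smul c f)] with y hy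
    simp only [hy, Pi.smul_apply, smul_eq_mul]
    ring

theorem main : Pool.Agent.Q170.GF.TaskU := by
  refine ⟨fun t => (L t).mkContinuous (Real.exp (-t)) (fun f => (norm_eq t f).le), ?_, ?_⟩
  · intro t f
    exact (memLp t f).coeFn_toLp
  · intro t f
    exact norm_eq t f

end Pool.Agent.Q170.GF.TU
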