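import Pool.Agent.Q170.GF.Stmts

/-! (C3) of the blueprint of helper170 for MP_bbd370_an: strong continuity of the dilation group (helper126). -/

namespace Pool.Agent.Q170.GF.TUcont
open Pool.Agent.Q170.GF
open MeasureTheory Set Filter Topology

instance locfin : IsLocallyFiniteMeasure mu := by
  unfold mu
  exact IsLocallyFiniteMeasure.withDensity_ofReal continuous_id

lemma qmp (c : ℝ) (hc : 0 < c) : Measure.QuasiMeasurePreserving (fun y : ℝ => y * c) mu mu := by
  have hmc : Measurable fun y : ℝ => y * c := measurable_id.mul_const c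
  refine ⟨hmc, ?_⟩
  refine Measure.AbsolutelyContinuous.mk fun s hs h0 => ?_
  rw [Measure.map_apply hmc hs]
  have h1 : (volume.restrict (Ioi (0:ℝ))) s = 0 := by
    have hac : (volume.restrict (Ioi (0:ℝ))) ≪ mu := by
      unfold mu
      refine withDensity_absolutelyContinuous' (by fun_prop) ?_
      filter_upwards [ae_restrict_mem measurableSet_Ioi] with x hx
      simpa using hx
    exact hac h0
  rw [Measure.restrict_apply hs] at h1
  have h2 : volume ((fun y : ℝ => y * c) ⁻¹' (s ∩ Ioi 0)) = 0 := by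
    rw [Real.volume_preimage_mul_right hc.ne', h1, mul_zero]
  have h3 : (volume.restrict (Ioi (0:ℝ))) ((fun y : ℝ => y * c) ⁻¹' s) = 0 := by
    rw [Measure.restrict_apply (hmc hs)]
    refine measure_mono_null ?_ h2
    rintro y ⟨hy1, hy2⟩
    exact ⟨hy1, mul_pos hy2 hc⟩
  exact (withDensity_absolutelyContinuous _ _) h3

lemma cont0_g (U : ℝ → X1 →L[ℝ] X1) (hU : IsU U) (g : ℝ → ℝ) (hg : Continuous g)
    (hs : HasCompactSupport g) (hm : MemLp g 1 mu) :
    Tendsto (fun t => ‖U t hm.toLp - hm.toLp‖) (𝓝 0) (𝓝 0) := by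
  have h1 : (fun t => ‖U t hm.toLp - hm.toLp‖) =
      fun t => ∫ y, ‖Real.exp (-3 * t) * g (y * Real.exp (-t)) - g y‖ ∂mu := by
    funext t
    rw [L1.norm_eq_integral_norm]
    refine integral_congr_ae ?_
    have h2 := Lp.coeFn_sub (U t hm.toLp) hm.toLp
    have h3 := hU t hm.toLp
    have h4 := hm.coeFn_toLp
    have h5 := (qmp (Real.exp (-t)) (Real.exp_pos _)).ae_eq_comp h4
    filter_upwards [h2, h3, h4, h5] with y e2 e3 e4 e5
    rw [e2, Pi.sub_apply, e3, e4]
    simp only [Function.comp] at e5
    rw [e5]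
  rw [h1]
  obtain ⟨C, hC⟩ := hs.exists_bound_of_continuous hg
  obtain ⟨R, hR⟩ := hs.isCompact.isBounded.subset_closedBall (0 : ℝ)
  have hR0 : ∀ x, max R 0 < |x| → g x = 0 := by
    intro x hx
    by_contra hne
    have h2 := hR (subset_tsupport g hne)
    rw [mem_closedBall_zero_iff, Real.norm_eq_abs] at h2
    exact absurd (lt_of_le_of_lt (le_max_left R 0) hx) (not_lt.2 h2)
  set S : ℝ := max R 0 with hS
  have hS0 : 0 ≤ S := le_max_right _ _
  have hC0 : 0 ≤ C := le_trans (norm_nonneg _) (hC 0)
  have key : Tendsto (fun t => ∫ y, ‖Real.exp (-3 * t) * g (y * Real.exp (-t)) - g y‖ ∂mu) (𝓝 0)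
      (𝓝 (∫ _, (0:ℝ) ∂mu)) := by
    refine tendsto_integral_filter_of_dominated_convergence
      (fun y => (Icc (-(Real.exp 1 * S)) (Real.exp 1 * S)).indicator (fun _ => Real.exp 3 * C + C) y) ?_ ?_ ?_ ?_
    · refine Eventually.of_forall fun t => ?_
      refine Continuous.aestronglyMeasurable ?_
      fun_prop
    · have hev : ∀ᶠ t : ℝ in 𝓝 0, |t| < 1 := by
        have : Tendsto (fun t : ℝ => |t|) (𝓝 0) (𝓝 |0|) := (continuous_abs).tendsto 0
        rw [abs_zero] at this
        exact this.eventually_lt_const one_pos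
      filter_upwards [hev] with t ht
      refine Eventually.of_forall fun y => ?_
      rw [norm_norm]
      by_cases hy : y ∈ Icc (-(Real.exp 1 * S)) (Real.exp 1 * S)
      · rw [indicator_of_mem hy]
        refine (norm_sub_le _ _).trans ?_
        refine add_le_add ?_ (hC y)
        rw [norm_mul]
        refine mul_le_mul ?_ (hC _) (norm_nonneg _) (Real.exp_pos _).le
        rw [Real.norm_eq_abs, Real.abs_exp]
        refine Real.exp_le_exp.2 ?_
        have := (abs_lt.1 ht).1
        linarith
      · rw [indicator_of_notMem hy]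
        have hy2 : Real.exp 1 * S < |y| := by
          by_contra hcon
          exact hy (abs_le.1 (not_lt.1 hcon))
        have hSy : S < |y| := by
          refine lt_of_le_of_lt ?_ hy2
          have : 1 ≤ Real.exp 1 := Real.one_le_exp zero_le_one
          nlinarith
        have hSy2 : S < |y * Real.exp (-t)| := by
          rw [abs_mul, Real.abs_exp]
          have h6 : Real.exp (-1) ≤ Real.exp (-t) := Real.exp_le_exp.2 (by linarith [(abs_lt.1 ht).2])
          have h7 : S = (Real.exp 1 * S) * Real.exp (-1) := by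
            rw [mul_comm (Real.exp 1) S, mul_assoc, ← Real.exp_add]
            simp
          calc S = (Real.exp 1 * S) * Real.exp (-1) := h7
            _ < |y| * Real.exp (-1) := mul_lt_mul_of_pos_right hy2 (Real.exp_pos _)
            _ ≤ |y| * Real.exp (-t) := mul_le_mul_of_nonneg_left h6 (abs_nonneg _)
        rw [hR0 _ hSy, hR0 _ hSy2]
        simp
    · refine (integrable_indicator_iff measurableSet_Icc).2 ?_
      exact integrableOn_const (isCompact_Icc.measure_lt_top.ne)
    · refine Eventually.of_forall fun y => ?_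
      have hcont : Continuous fun t : ℝ => ‖Real.exp (-3 * t) * g (y * Real.exp (-t)) - g y‖ := by fun_prop
      have h8 := hcont.tendsto 0
      simpa using h8
  simpa using key

theorem main : TaskUcont := by
  intro hgrp U hU hn f
  obtain ⟨h0, hadd⟩ := hgrp U hU
  have hz : ∀ f : X1, Tendsto (fun t => ‖U t f - f‖) (𝓝 0) (𝓝 0) := by
    intro f
    rw [Metric.tendsto_nhds]
    intro ε hε
    obtain ⟨g, hgs, hge, hgc, hgm⟩ := (Lp.memLp f).exists_hasCompactSupport_eLpNorm_sub_le
      (p := 1) ENNReal.one_ne_top (ε := ENNReal.ofReal (ε / 8)) (by simpa using hε)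
    set G : X1 := hgm.toLp with hG
    have hd : ‖f - G‖ ≤ ε / 8 := by
      have h2 : f - G = ((Lp.memLp f).sub hgm).toLp := by
        rw [MemLp.toLp_sub (Lp.memLp f) hgm, Lp.toLp_coeFn f (Lp.memLp f)]
      rw [h2, Lp.norm_toLp]
      exact ENNReal.toReal_le_of_le_ofReal (by positivity) hge
    have h3 := cont0_g U hU g hgc hgs hgm
    have h4 : ∀ᶠ t in 𝓝 (0:ℝ), ‖U t G - G‖ < ε / 4 := h3.eventually_lt_const (by positivity)
    have h5 : ∀ᶠ t in 𝓝 (0:ℝ), Real.exp (-t) < 2 := by
      have hc : Continuous fun t : ℝ => Real.exp (-t) := by fun_prop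
      have := hc.tendsto 0
      simp only [neg_zero, Real.exp_zero] at this
      exact this.eventually_lt_const one_lt_two
    filter_upwards [h4, h5] with t ht4 ht5
    rw [dist_zero_right, norm_norm]
    have h6 : U t f - f = U t (f - G) + (U t G - G) - (f - G) := by
      rw [map_sub]; abel
    rw [h6]
    have h7 : ‖U t (f - G)‖ ≤ 2 * (ε / 8) := by
      rw [hn]
      exact mul_le_mul ht5.le hd (norm_nonneg _) zero_le_two
    calc ‖U t (f - G) + (U t G - G) - (f - G)‖ ≤ ‖U t (f - G)‖ + ‖U t G - G‖ + ‖f - G‖ :=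
          (norm_sub_le _ _).trans (add_le_add (norm_add_le _ _) le_rfl)
      _ < ε := by linarith
  rw [continuous_iff_continuousAt]
  intro t
  rw [ContinuousAt, tendsto_iff_norm_sub_tendsto_zero]
  have h1 : ∀ s, ‖U s f - U t f‖ = Real.exp (-t) * ‖U (s - t) f - f‖ := by
    intro s
    rw [← hn, map_sub]
    congr 2
    have := hadd t (s - t)
    rw [add_sub_cancel] at this
    rw [this]; rfl
  simp_rw [h1]
  have h2 : Tendsto (fun s : ℝ => s - t) (𝓝 t) (𝓝 0) := by
    have hc : Continuous fun s : ℝ => s - t := by fun_prop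
    have := hc.tendsto t
    rwa [sub_self] at this
  have h3 := ((hz f).comp h2).const_mul (Real.exp (-t))
  rwa [mul_zero] at h3

end Pool.Agent.Q170.GF.TUcont
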