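import Pool.Agent.Q170.GF.Stmts

set_option autoImplicit false

namespace Pool.Agent.Q170.GF.TUgrp

open MeasureTheory Set Filter Topology Pool.Agent.Q170.GF

theorem ae_mu_iff {P : ℝ → Prop} : (∀ᵐ x ∂mu, P x) ↔ ∀ᵐ x ∂(volume : Measure ℝ), 0 < x → P x := by
  unfold mu
  rw [ae_withDensity_iff (by fun_prop), ae_restrict_iff' measurableSet_Ioi]
  apply eventually_congr
  refine Eventually.of_forall fun x => ?_
  constructor
  · intro h hx
    exact h hx (by simpa using hx)
  · intro h hx _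
    exact h hx

theorem ae_comp {P : ℝ → Prop} (h : ∀ᵐ x ∂mu, P x) {c : ℝ} (hc : 0 < c) : ∀ᵐ x ∂mu, P (x * c) := by
  rw [ae_mu_iff] at h ⊢
  rw [ae_iff] at h ⊢
  have h1 := Real.volume_preimage_mul_right hc.ne' {a | ¬(0 < a → P a)}
  rw [h, mul_zero] at h1
  refine measure_mono_null ?_ h1
  intro x hx hx'
  exact hx fun h0 => hx' (mul_pos h0 hc)

theorem main : Pool.Agent.Q170.GF.TaskUgrp := by
  intro U hU
  constructor
  · ext1 f
    apply Lp.ext
    filter_upwards [hU 0 f] with y hy
    rw [hy]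
    simp
  · intro s t
    ext1 f
    apply Lp.ext
    have h1 := hU (s + t) f
    have h2 := hU s (U t f)
    have h3 := ae_comp (hU t f) (Real.exp_pos (-s))
    filter_upwards [h1, h2, h3] with y hy1 hy2 hy3
    change (U (s + t) f : ℝ → ℝ) y = (U s (U t f) : ℝ → ℝ) y
    rw [hy1, hy2, hy3]
    have h4 : Real.exp (-3 * (s + t)) = Real.exp (-3 * s) * Real.exp (-3 * t) := by
      rw [← Real.exp_add]
      congr 1
      ring
    have h5 : y * Real.exp (-(s + t)) = y * Real.exp (-s) * Real.exp (-t) := by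
      rw [mul_assoc, ← Real.exp_add]
      congr 2
      ring
    rw [h4, h5, mul_assoc]

end Pool.Agent.Q170.GF.TUgrp
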