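import Pool.Agent.Q170.GF.Stmts

set_option autoImplicit false

namespace Pool.Agent.Q170.GF.TUniq
open MeasureTheory Set Filter Topology
open Pool.Agent.Q170.GF

theorem main : Pool.Agent.Q170.GF.TaskUniq := by
  intro X _ _ _ A C w hA hC hw hint
  have hC0 : 0 ≤ C := (norm_nonneg _).trans (hC 0)
  have hcont : Continuous fun s => A s (w s) := by
    rw [continuous_iff_continuousAt]
    intro s₀
    have h1 : Tendsto (fun s => A s (w s - w s₀)) (𝓝 s₀) (𝓝 0) := by
      refine squeeze_zero_norm (a := fun s => C * ‖w s - w s₀‖) (fun s => ?_) ?_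
      · exact (A s).le_of_opNorm_le (hC s) _
      · have h2 : Tendsto (fun s => C * ‖w s - w s₀‖) (𝓝 s₀) (𝓝 (C * ‖w s₀ - w s₀‖)) :=
          ((continuous_const.mul (hw.sub continuous_const).norm).tendsto s₀)
        rwa [sub_self, norm_zero, mul_zero] at h2
    have h3 : Tendsto (fun s => A s (w s₀)) (𝓝 s₀) (𝓝 (A s₀ (w s₀))) := (hA (w s₀)).tendsto s₀
    have h4 := h1.add h3
    rw [zero_add] at h4
    refine h4.congr fun s => ?_
    rw [map_sub, sub_add_cancel]
  have hder : ∀ t, HasDerivAt w (A t (w t)) t := by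
    intro t
    have h1 := intervalIntegral.integral_hasDerivAt_right (hcont.intervalIntegrable 0 t)
      (hcont.stronglyMeasurableAtFilter _ _) hcont.continuousAt
    have h2 : (fun u => ∫ s in (0 : ℝ)..u, A s (w s)) = w := funext fun u => (hint u).symm
    rwa [h2] at h1
  have huniq := ODE_solution_unique_univ (v := fun t x => A t x) (s := fun _ => univ)
    (K := ⟨C, hC0⟩) (f := w) (g := fun _ => 0) (t₀ := 0)
    (fun t => ((A t).lipschitz.weaken (by
      rw [← NNReal.coe_le_coe]
      exact hC t)).lipschitzOnWith)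
    (fun t => ⟨hder t, mem_univ _⟩)
    (fun t => ⟨by
      show HasDerivAt (fun _ : ℝ => (0 : X)) ((A t) 0) t
      rw [map_zero]
      exact hasDerivAt_const t (0 : X), mem_univ _⟩)
    (by rw [hint 0, intervalIntegral.integral_same])
  intro t
  rw [huniq]

end Pool.Agent.Q170.GF.TUniq
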