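import Pool.Agent.Q170.GF.Stmts

/-! Blueprint lemma (C9) of `MP_bbd370_an`. -/

namespace Pool.Agent.Q170.GF.TUpos

open MeasureTheory Set Filter Topology Pool.Agent.Q170.GF

lemma ac1 : mu ≪ (volume.restrict (Ioi (0 : ℝ))) := withDensity_absolutelyContinuous _ _

lemma ac2 : (volume.restrict (Ioi (0 : ℝ))) ≪ mu := by
  apply withDensity_absolutelyContinuous'
  · exact (ENNReal.measurable_ofReal.comp measurable_id).aemeasurable
  · rw [ae_restrict_iff' measurableSet_Ioi]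
    refine ae_of_all _ fun x hx => ?_
    have : (0 : ℝ) < x := hx
    simp [this]

lemma dil {p : ℝ → Prop} (h : ∀ᵐ x ∂mu, p x) (c : ℝ) (hc : 0 < c) : ∀ᵐ x ∂mu, p (x * c) := by
  have h1 : ∀ᵐ x ∂(volume.restrict (Ioi (0 : ℝ))), p x := ac2.ae_le h
  suffices h3 : ∀ᵐ x ∂(volume.restrict (Ioi (0 : ℝ))), p (x * c) from ac1.ae_le h3
  rw [ae_iff, Measure.restrict_apply' measurableSet_Ioi] at h1 ⊢
  have h2 : volume ((fun x => x * c) ⁻¹' ({a | ¬ p a} ∩ Ioi 0)) = 0 := by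
    rw [Real.volume_preimage_mul_right hc.ne', h1, mul_zero]
  refine measure_mono_null ?_ h2
  rintro x ⟨hx, hx0⟩
  exact ⟨hx, mul_pos hx0 hc⟩

theorem main : Pool.Agent.Q170.GF.TaskUpos := by
  intro U hU t f hf
  rw [← Lp.coeFn_nonneg] at hf ⊢
  have h1 : ∀ᵐ x ∂mu, 0 ≤ f (x * Real.exp (-t)) := dil hf _ (Real.exp_pos _)
  filter_upwards [hU t f, h1] with x hx h0
  rw [hx]
  exact mul_nonneg (Real.exp_pos _).le h0

end Pool.Agent.Q170.GF.TUpos
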