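import Pool.Agent.Q170.GF.Stmts

set_option autoImplicit false

namespace Pool.Agent.Q170.GF.TVolt

open MeasureTheory Set Filter Topology Pool.Agent.Q170.GF

theorem main : Pool.Agent.Q170.GF.TaskVolt := by
  intro c g k hc hg hk hg0 hk0 h t ht
  obtain ⟨n, hn⟩ : ∃ n : ℝ → ℝ, n = fun s => max 0 (-c s) := ⟨_, rfl⟩
  have hnc : Continuous n := by rw [hn]; exact continuous_const.max hc.neg
  have hn0 : ∀ s, 0 ≤ n s := fun s => by rw [hn]; exact le_max_left _ _
  have hnc' : ∀ s, -c s ≤ n s := fun s => by rw [hn]; exact le_max_right _ _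
  obtain ⟨M, hM⟩ := (isCompact_Icc (a := (0 : ℝ)) (b := t)).exists_bound_of_continuousOn hk.continuousOn
  have hM0 : 0 ≤ M := (norm_nonneg _).trans (hM 0 ⟨le_rfl, ht⟩)
  obtain ⟨N, hN⟩ : ∃ N : ℝ → ℝ, N = fun x => ∫ s in (0 : ℝ)..x, n s := ⟨_, rfl⟩
  have hder : ∀ x, HasDerivAt N (n x) x := fun x => by
    rw [hN]
    exact intervalIntegral.integral_hasDerivAt_right (hnc.intervalIntegrable _ _)
      (hnc.stronglyMeasurableAtFilter _ _) hnc.continuousAt
  have hNx : ∀ x, 0 ≤ x → 0 ≤ N x := fun x hx => by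
    rw [hN]
    exact intervalIntegral.integral_nonneg hx fun s _ => hn0 s
  have hbd : ∀ x, 0 ≤ x → x ≤ t → n x ≤ M * N x := by
    intro x hx hxt
    have h1 : -c x ≤ M * N x := by
      rw [h x hx, neg_add]
      have h2 : -∫ s in (0 : ℝ)..x, c s * k (x - s) ≤ ∫ s in (0 : ℝ)..x, M * n s := by
        rw [← intervalIntegral.integral_neg]
        refine intervalIntegral.integral_mono_on hx ?_ ?_ ?_
        · exact ((hc.mul (hk.comp (continuous_const.sub continuous_id))).neg).intervalIntegrable _ _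
        · exact (continuous_const.mul hnc).intervalIntegrable _ _
        · intro s hs
          have hk1 : 0 ≤ k (x - s) := hk0 _ (by linarith [hs.2])
          have hk2 : k (x - s) ≤ M := (le_abs_self _).trans
            (hM (x - s) ⟨by linarith [hs.2], by linarith [hs.1]⟩)
          calc -(c s * k (x - s)) = (-c s) * k (x - s) := by ring
            _ ≤ n s * k (x - s) := mul_le_mul_of_nonneg_right (hnc' s) hk1
            _ ≤ n s * M := mul_le_mul_of_nonneg_left hk2 (hn0 s)
            _ = M * n s := by ring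
      rw [intervalIntegral.integral_const_mul] at h2
      have h3 := hg0 x hx
      rw [hN]
      linarith
    have h4 : 0 ≤ M * N x := mul_nonneg hM0 (hNx x hx)
    have h5 : n x = max 0 (-c x) := by rw [hn]
    rw [h5]
    exact max_le h4 h1
  have hzero : ∀ x ∈ Icc (0 : ℝ) t, ‖N x‖ ≤ gronwallBound 0 M 0 (x - 0) := by
    refine norm_le_gronwallBound_of_norm_deriv_right_le (f' := n)
      (fun x _ => (hder x).continuousAt.continuousWithinAt) (fun x _ => (hder x).hasDerivWithinAt) ?_ ?_
    · rw [hN]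
      simp
    · intro x hx
      rw [Real.norm_of_nonneg (hn0 x), Real.norm_of_nonneg (hNx x hx.1), add_zero]
      exact hbd x hx.1 hx.2.le
  have h6 := hzero t ⟨ht, le_rfl⟩
  rw [gronwallBound_ε0_δ0] at h6
  have h7 : N t = 0 := norm_le_zero_iff.1 h6
  have h8 := hbd t ht le_rfl
  rw [h7, mul_zero] at h8
  have h9 := hnc' t
  linarith

end Pool.Agent.Q170.GF.TVolt
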