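import Pool.Agent.Q170.GF.Stmts

/-! Crowd lemma (helper234) for helper170's blueprint GF. -/

namespace Pool.Agent.Q170.GF.TVpos
open MeasureTheory Set Filter Topology Pool.Agent.Q170.GF

theorem smul_nn (a : ℝ) (ha : 0 ≤ a) (f : X1) (hf : 0 ≤ f) : 0 ≤ a • f := by
  rw [← Lp.coeFn_nonneg] at hf ⊢
  filter_upwards [hf, Lp.coeFn_smul a f] with x h1 h2
  rw [h2]
  simp only [Pi.smul_apply, smul_eq_mul, Pi.zero_apply] at h1 ⊢
  exact mul_nonneg ha h1

theorem main : Pool.Agent.Q170.GF.TaskVpos := by
  intro hVolt U V B φ h hU hV hD hB hh hφ hUpos t f ht hf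
  have hUc : ∀ (g : X1) (t : ℝ), Continuous fun s => U (t - s) g := fun g t =>
    (hU.cont g).comp (continuous_const.sub continuous_id)
  set c : ℝ → ℝ := fun t => φ (V t f) with hc
  have hcc : Continuous c := φ.continuous.comp (hV.cont f)
  have hint : ∀ t : ℝ, Continuous fun s => c s • U (t - s) h := fun t => hcc.smul (hUc h t)
  have hduh : ∀ t, V t f = U t f + ∫ s in (0 : ℝ)..t, c s • U (t - s) h := by
    intro t
    rw [hD f t]
    congr 1
    apply intervalIntegral.integral_congr
    intro s _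
    simp only [hB, map_smul, hc]
  have heq : ∀ t, 0 ≤ t → c t = φ (U t f) + ∫ s in (0 : ℝ)..t, c s * φ (U (t - s) h) := by
    intro t _
    have h1 : c t = φ (U t f + ∫ s in (0 : ℝ)..t, c s • U (t - s) h) := by
      rw [← hduh t]
    rw [h1, map_add]
    congr 1
    rw [← ContinuousLinearMap.intervalIntegral_comp_comm φ ((hint t).intervalIntegrable _ _)]
    apply intervalIntegral.integral_congr
    intro s _
    simp only [map_smul, smul_eq_mul]
  have hcpos := hVolt c (fun t => φ (U t f)) (fun t => φ (U t h)) hcc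
    (φ.continuous.comp (hU.cont f)) (φ.continuous.comp (hU.cont h))
    (fun t ht => hφ _ (hUpos t f ht hf)) (fun t ht => hφ _ (hUpos t h ht hh)) heq
  rw [hduh t]
  apply add_nonneg (hUpos t f ht hf)
  haveI : IsOrderedModule ℝ X1 := IsOrderedModule.of_smul_nonneg (fun a ha f hf => smul_nn a ha f hf)
  rw [intervalIntegral.integral_of_le ht]
  apply integral_nonneg_of_ae
  filter_upwards [ae_restrict_mem measurableSet_Ioc] with s hs
  exact smul_nn _ (hcpos s hs.1.le) _ (hUpos _ h (by linarith [hs.2]) hh)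

end Pool.Agent.Q170.GF.TVpos
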